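import Mathlib

namespace Pool.Agent.MP_195eb9_ag

open Filter

/-- A set `S` of natural numbers is non-lacunary if for every `ε > 0` the interval
`[(1 - ε) n, n]` meets `S` for all large `n` (the set is infinite and the ratio of consecutive
elements tends to `1`). -/
def NonLacunary (S : Set ℕ) : Prop :=
  ∀ ε : ℝ, 0 < ε → ∀ᶠ n : ℕ in atTop, ∃ m ∈ S, (1 - ε) * (n : ℝ) ≤ (m : ℝ) ∧ m ≤ n

/-- The homogeneous coordinates of `P^r × (P^1)^N` are indexed by `Fin (r+1) ⊕ Fin N × Fin 2`;
`factor v` is the factor the coordinate `v` belongs to (`none` is the factor `P^r`). -/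
def factor {r N : ℕ} : Fin (r + 1) ⊕ Fin N × Fin 2 → Option (Fin N) :=
  Sum.elim (fun _ => none) (fun v => some v.1)

/-- The list of homogeneous coordinates of the point `(y, x_0, ..., x_(N-1))`. -/
def coords {K : Type*} {r N : ℕ} (y : Fin (r + 1) → K) (x : Fin N → Fin 2 → K) :
    Fin (r + 1) ⊕ Fin N × Fin 2 → K :=
  Sum.elim y (fun v => x v.1 v.2)

end Pool.Agent.MP_195eb9_ag
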