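import Mathlib

/-! Sets of upper Banach density zero and the weak dynamical Mordell-Lang theorem. -/

namespace Pool.Agent.MP_195eb9_ag

open Finset

/-- number of elements of `S` in the window `[a, a + L)` -/
noncomputable def cnt (S : Set ℕ) (a L : ℕ) : ℕ := by
  classical exact ((Ico a (a + L)).filter (· ∈ S)).card

/-- upper Banach density zero -/
def BZ (S : Set ℕ) : Prop :=
  ∀ ε : ℝ, 0 < ε → ∃ c : ℝ, ∀ a L : ℕ, (cnt S a L : ℝ) ≤ ε * L + c

lemma cnt_mono {S T : Set ℕ} (h : S ⊆ T) (a L : ℕ) : cnt S a L ≤ cnt T a L := by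
  classical
  unfold cnt
  apply card_le_card
  intro n hn
  simp only [mem_filter] at hn ⊢
  exact ⟨hn.1, h hn.2⟩

lemma cnt_union (S T : Set ℕ) (a L : ℕ) : cnt (S ∪ T) a L ≤ cnt S a L + cnt T a L := by
  classical
  unfold cnt
  refine le_trans (card_le_card ?_) (card_union_le _ _)
  intro n hn
  simp only [mem_filter, mem_union, Set.mem_union] at hn ⊢
  tauto

lemma BZ.mono {S T : Set ℕ} (hT : BZ T) (h : S ⊆ T) : BZ S := by
  intro ε hε
  obtain ⟨c, hc⟩ := hT ε hε
  refine ⟨c, fun a L => le_trans ?_ (hc a L)⟩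
  exact_mod_cast cnt_mono h a L

lemma BZ.union {S T : Set ℕ} (hS : BZ S) (hT : BZ T) : BZ (S ∪ T) := by
  intro ε hε
  obtain ⟨c, hc⟩ := hS (ε / 2) (by positivity)
  obtain ⟨c', hc'⟩ := hT (ε / 2) (by positivity)
  refine ⟨c + c', fun a L => ?_⟩
  have h1 : (cnt (S ∪ T) a L : ℝ) ≤ cnt S a L + cnt T a L := by exact_mod_cast cnt_union S T a L
  have := hc a L
  have := hc' a L
  linarith

lemma BZ.of_finite {S : Set ℕ} (hS : S.Finite) : BZ S := by
  classical
  intro ε hε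
  refine ⟨hS.toFinset.card, fun a L => ?_⟩
  have h1 : cnt S a L ≤ hS.toFinset.card := by
    unfold cnt
    apply card_le_card
    intro n hn
    simp only [mem_filter] at hn
    simpa using hn.2
  have h2 : (cnt S a L : ℝ) ≤ hS.toFinset.card := by exact_mod_cast h1
  have : 0 ≤ ε * L := by positivity
  linarith

lemma BZ.biUnion {ι : Type*} (s : Finset ι) (S : ι → Set ℕ) (h : ∀ i ∈ s, BZ (S i)) :
    BZ (⋃ i ∈ s, S i) := by
  classical
  induction s using Finset.induction_on with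
  | empty => simpa using BZ.of_finite Set.finite_empty
  | insert i s hi ih =>
    rw [Finset.set_biUnion_insert]
    exact (h i (mem_insert_self _ _)).union (ih fun j hj => h j (mem_insert_of_mem hj))

lemma cnt_sep {S : Set ℕ} {r : ℕ} (hr : 0 < r)
    (h : ∀ s ∈ S, ∀ t ∈ S, s < t → s + r < t) (a L : ℕ) : cnt S a L ≤ L / r + 1 := by
  classical
  unfold cnt
  have : ((Ico a (a + L)).filter (· ∈ S)).card ≤ (range (L / r + 1)).card := by
    apply card_le_card_of_injOn (fun n => (n - a) / r)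
    · intro n hn
      simp only [coe_filter, mem_Ico, Set.mem_ofPred_eq] at hn
      simp only [coe_range, Set.mem_Iio]
      apply Nat.lt_succ_of_le
      apply Nat.div_le_div_right
      omega
    · intro n hn m hm hnm
      simp only [coe_filter, mem_Ico, Set.mem_ofPred_eq] at hn hm
      simp only at hnm
      have key : ∀ u v : ℕ, a ≤ u → a ≤ v → u + r < v → (u - a) / r ≠ (v - a) / r := by
        intro u v hu hv huv he
        have h1 : (u - a + r) / r ≤ (v - a) / r := Nat.div_le_div_right (by omega)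
        rw [Nat.add_div_right _ hr] at h1
        omega
      rcases lt_trichotomy n m with hlt | heq | hgt
      · exact absurd hnm (key n m hn.1.1 hm.1.1 (h n hn.2 m hm.2 hlt))
      · exact heq
      · exact absurd hnm.symm (key m n hm.1.1 hn.1.1 (h m hm.2 n hn.2 hgt))
  simpa using this

lemma exists_shift_not_BZ {S : Set ℕ} (hS : ¬ BZ S) :
    ∃ k, 0 < k ∧ ¬ BZ (S ∩ {n | n + k ∈ S}) := by
  by_contra hcon
  push Not at hcon
  apply hS
  intro ε hε
  obtain ⟨r, hr⟩ := exists_nat_gt (2 / ε)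
  have hr0 : 0 < r := by
    have : (0 : ℝ) < r := lt_trans (by positivity) hr
    exact_mod_cast this
  set U : Set ℕ := ⋃ k ∈ Icc 1 r, (S ∩ {n | n + k ∈ S}) with hU
  have hUZ : BZ U := BZ.biUnion _ _ fun k hk => hcon k (by simp only [mem_Icc] at hk; omega)
  obtain ⟨c, hc⟩ := hUZ (ε / 2) (by positivity)
  refine ⟨c + 1, fun a L => ?_⟩
  have hsub : S ⊆ (S \ U) ∪ U := by
    intro n hn
    by_cases h : n ∈ U
    · exact Or.inr h
    · exact Or.inl ⟨hn, h⟩
  have hsep : ∀ s ∈ S \ U, ∀ t ∈ S \ U, s < t → s + r < t := by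
    intro s hs t ht hst
    by_contra hle
    apply hs.2
    simp only [hU, Set.mem_iUnion]
    refine ⟨t - s, by simp only [mem_Icc]; omega, hs.1, ?_⟩
    have : s + (t - s) = t := by omega
    simp only [Set.mem_ofPred_eq, this]
    exact ht.1
  have h1 := cnt_sep hr0 hsep a L
  have h2 := le_trans (cnt_mono hsub a L) (cnt_union _ _ a L)
  have h3 : (cnt S a L : ℝ) ≤ ((L / r : ℕ) : ℝ) + 1 + cnt U a L := by
    have : cnt S a L ≤ L / r + 1 + cnt U a L := by omega
    exact_mod_cast this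
  have h4 : ((L / r : ℕ) : ℝ) ≤ (L : ℝ) / r := Nat.cast_div_le
  have h5 : (L : ℝ) / r ≤ ε / 2 * L := by
    have hrpos : (0 : ℝ) < r := by exact_mod_cast hr0
    rw [div_le_iff₀ hrpos]
    have : 1 ≤ ε / 2 * r := by
      rw [div_lt_iff₀ hε] at hr
      nlinarith
    have hL : (0 : ℝ) ≤ L := by positivity
    nlinarith
  have := hc a L
  linarith

/-- abstract weak dynamical Mordell-Lang theorem -/
lemma weak_dml_abstract (𝒩 : Set (Set ℕ)) (huniv : Set.univ ∈ 𝒩)
    (hinter : ∀ S ∈ 𝒩, ∀ T ∈ 𝒩, S ∩ T ∈ 𝒩)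
    (hshift : ∀ S ∈ 𝒩, ∀ k : ℕ, {n | n + k ∈ S} ∈ 𝒩)
    (hmin : ∀ P : Set (Set ℕ), P ⊆ 𝒩 → P.Nonempty → ∃ S ∈ P, ∀ T ∈ P, T ⊆ S → T = S) :
    ∃ a k : ℕ, 0 < k ∧ ∀ S ∈ 𝒩, ∀ i : ℕ,
      (∀ t : ℕ, a + i + k * t ∈ S) ∨ BZ (S ∩ {n | ∃ t, n = a + i + k * t}) := by
  obtain ⟨S₀, ⟨hS₀, a, k, hk, hak⟩, hmin₀⟩ := hmin
    {S | S ∈ 𝒩 ∧ ∃ a k : ℕ, 0 < k ∧ ∀ t : ℕ, a + k * t ∈ S} (fun S hS => hS.1)
    ⟨Set.univ, huniv, 0, 1, one_pos, fun _ => trivial⟩
  refine ⟨a, k, hk, fun S hS i => ?_⟩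
  by_contra hcon
  push Not at hcon
  obtain ⟨⟨t₀, ht₀⟩, hBZ⟩ := hcon
  set cl : Set ℕ := {n | ∃ t, n = a + i + k * t} with hcl
  obtain ⟨S', ⟨hS', hS'S, hS'Z⟩, hmin'⟩ := hmin
    {T | T ∈ 𝒩 ∧ T ⊆ S ∧ ¬ BZ (T ∩ cl)} (fun S hS => hS.1) ⟨S, hS, subset_rfl, hBZ⟩
  obtain ⟨j, hj, hjZ⟩ := exists_shift_not_BZ hS'Z
  have hne : ((S' ∩ cl) ∩ {n | n + j ∈ S' ∩ cl}).Nonempty := by
    by_contra h
    rw [Set.not_nonempty_iff_eq_empty] at h
    exact hjZ (h ▸ BZ.of_finite Set.finite_empty)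
  obtain ⟨n₀, ⟨hn₀S, s₀, hs₀⟩, -, s₁, hs₁⟩ := hne
  have heq : S' ∩ {n | n + j ∈ S'} = S' := by
    apply hmin'
    · refine ⟨hinter _ hS' _ (hshift _ hS' j), Set.inter_subset_left.trans hS'S, ?_⟩
      intro h
      apply hjZ
      apply h.mono
      rintro n ⟨⟨h1, h2⟩, h3, -⟩
      exact ⟨⟨h1, h3⟩, h2⟩
    · exact Set.inter_subset_left
  have hstep : ∀ n ∈ S', n + j ∈ S' := by
    intro n hn
    rw [← heq] at hn
    exact hn.2
  have hall : ∀ t : ℕ, n₀ + j * t ∈ S' := by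
    intro t
    induction t with
    | zero => simpa using hn₀S
    | succ t ih =>
      have := hstep _ ih
      rwa [show n₀ + j * t + j = n₀ + j * (t + 1) by ring] at this
  have hs01 : s₀ ≤ s₁ := by
    by_contra h
    have : k * s₁ ≤ k * s₀ := Nat.mul_le_mul_left _ (by omega)
    omega
  obtain ⟨l, rfl⟩ := Nat.exists_eq_add_of_le hs01
  have hjl : j = k * l := by
    rw [mul_add] at hs₁
    omega
  have heq₀ : S₀ ∩ {n | n + i ∈ S} = S₀ := by
    apply hmin₀
    · refine ⟨hinter _ hS₀ _ (hshift _ hS i), a + k * s₀, j, hj, fun t => ⟨?_, ?_⟩⟩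
      · have := hak (s₀ + l * t)
        rwa [show a + k * (s₀ + l * t) = a + k * s₀ + j * t by rw [hjl]; ring] at this
      · have := hS'S (hall t)
        simp only [Set.mem_ofPred_eq]
        rwa [show a + k * s₀ + j * t + i = n₀ + j * t by rw [hs₀]; ring]
    · exact Set.inter_subset_left
  apply ht₀
  have := hak t₀
  rw [← heq₀] at this
  have h2 := this.2
  simp only [Set.mem_ofPred_eq] at h2
  rwa [show a + k * t₀ + i = a + i + k * t₀ by ring] at h2

open MvPolynomial in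
/-- weak dynamical Mordell-Lang theorem for orbits of polynomial maps -/
lemma weak_dml {K σ : Type*} [Field K] [Finite σ] (Φ : σ → MvPolynomial σ K) (w : ℕ → σ → K)
    (hw : ∀ n v, w (n + 1) v = eval (w n) (Φ v)) :
    ∃ a k : ℕ, 0 < k ∧ ∀ p : MvPolynomial σ K, ∀ i : ℕ,
      (∀ t : ℕ, eval (w (a + i + k * t)) p = 0) ∨
        BZ ({n | eval (w n) p = 0} ∩ {n | ∃ t, n = a + i + k * t}) := by
  let Nn : Set (MvPolynomial σ K) → Set ℕ := fun J => {n | ∀ p ∈ J, eval (w n) p = 0}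
  let I : Set ℕ → Ideal (MvPolynomial σ K) := fun T =>
    { carrier := {p | ∀ n ∈ T, eval (w n) p = 0}
      add_mem' := by
        intro p q hp hq n hn
        simp [hp n hn, hq n hn]
      zero_mem' := by intro n _; simp
      smul_mem' := by
        intro c p hp n hn
        simp [hp n hn] }
  have hstep : ∀ n (p : MvPolynomial σ K), eval (w (n + 1)) p = eval (w n) (bind₁ Φ p) := by
    intro n p
    have : w (n + 1) = fun v => eval (w n) (Φ v) := funext (hw n)
    rw [this]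
    exact (eval₂Hom_bind₁ (RingHom.id K) (w n) Φ p).symm
  have hiter : ∀ k n (p : MvPolynomial σ K),
      eval (w (n + k)) p = eval (w n) ((bind₁ Φ)^[k] p) := by
    intro k
    induction k with
    | zero => intro n p; rfl
    | succ k ih =>
      intro n p
      rw [← add_assoc, hstep, ih, Function.iterate_succ_apply]
  obtain ⟨a, k, hk, h⟩ := weak_dml_abstract (Set.range Nn) ⟨∅, by ext n; simp [Nn]⟩
    (by
      rintro _ ⟨J, rfl⟩ _ ⟨J', rfl⟩
      refine ⟨J ∪ J', ?_⟩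
      ext n
      simp only [Nn, Set.mem_union, Set.mem_ofPred_eq, Set.mem_inter_iff]
      constructor
      · intro h
        exact ⟨fun p hp => h p (Or.inl hp), fun p hp => h p (Or.inr hp)⟩
      · rintro ⟨h1, h2⟩ p (hp | hp)
        exacts [h1 p hp, h2 p hp])
    (by
      rintro _ ⟨J, rfl⟩ k
      refine ⟨(bind₁ Φ)^[k] '' J, ?_⟩
      ext n
      simp only [Nn, Set.mem_ofPred_eq, Set.forall_mem_image, hiter])
    (by
      intro P hP hne
      obtain ⟨_, ⟨S, hS, rfl⟩, hmax⟩ :=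
        set_has_maximal_iff_noetherian.2 (inferInstance : IsNoetherian (MvPolynomial σ K) _)
          (I '' P) (hne.image I)
      refine ⟨S, hS, fun T hT hTS => ?_⟩
      have hle : I S ≤ I T := fun p hp n hn => hp n (hTS hn)
      have hIe : I S = I T := by
        by_contra hne'
        exact hmax (I T) ⟨T, hT, rfl⟩ (lt_of_le_of_ne hle hne')
      apply Set.Subset.antisymm hTS
      obtain ⟨J, rfl⟩ := hP hT
      intro n hn p hp
      have : p ∈ I (Nn J) := fun m hm => hm p hp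
      rw [← hIe] at this
      exact this n hn)
  refine ⟨a, k, hk, fun p i => ?_⟩
  have := h (Nn {p}) ⟨_, rfl⟩ i
  simpa [Nn] using this

end Pool.Agent.MP_195eb9_ag
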