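import Pool.Agent.MP_195eb9_ag.Defs
import Pool.Agent.MP_195eb9_ag.WeakDML

/-! Exponential growth rates of sequences satisfying an approximate linear recursion. -/

namespace Pool.Agent.MP_195eb9_ag

open Filter Topology Finset Real

def Up (s : ℕ → ℝ) (r : ℝ) : Prop :=
  ∀ ε : ℝ, 0 < ε → ∃ c : ℝ, ∀ᶠ n : ℕ in atTop, s n ≤ c * exp ((r + ε) * n)

def Low (s : ℕ → ℝ) (r : ℝ) : Prop :=
  ∀ ε : ℝ, 0 < ε → ∃ c : ℝ, 0 < c ∧ ∀ᶠ n : ℕ in atTop, c * exp ((r - ε) * n) ≤ s n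

lemma Up.all {s : ℕ → ℝ} {r : ℝ} (h : Up s r) {ε : ℝ} (hε : 0 < ε) :
    ∃ c : ℝ, 0 < c ∧ ∀ n : ℕ, s n ≤ c * exp ((r + ε) * n) := by
  obtain ⟨c, hc⟩ := h ε hε
  obtain ⟨N, hN⟩ := eventually_atTop.1 hc
  have hs : 0 ≤ ∑ m ∈ range N, |s m| / exp ((r + ε) * m) := sum_nonneg fun m _ => by positivity
  refine ⟨|c| + 1 + ∑ m ∈ range N, |s m| / exp ((r + ε) * m), by positivity, fun n => ?_⟩
  have he := exp_pos ((r + ε) * n)
  by_cases hn : N ≤ n
  · refine (hN n hn).trans ?_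
    apply mul_le_mul_of_nonneg_right _ he.le
    have := le_abs_self c
    linarith
  · have h1 : |s n| / exp ((r + ε) * n) ≤ ∑ m ∈ range N, |s m| / exp ((r + ε) * m) :=
      single_le_sum (f := fun m : ℕ => |s m| / exp ((r + ε) * m)) (fun m _ => by positivity)
        (mem_range.2 (by omega))
    rw [div_le_iff₀ he] at h1
    have h2 := le_abs_self (s n)
    have h3 : 0 ≤ (|c| + 1) * exp ((r + ε) * n) := by positivity
    nlinarith

lemma Up.mono {s : ℕ → ℝ} {r r' : ℝ} (h : Up s r) (hr : r ≤ r') : Up s r' := by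
  intro ε hε
  obtain ⟨c, hc, h⟩ := h.all hε
  refine ⟨c, Eventually.of_forall fun n => (h n).trans ?_⟩
  gcongr

lemma Up.add {s t : ℕ → ℝ} {r : ℝ} (hs : Up s r) (ht : Up t r) : Up (fun n => s n + t n) r := by
  intro ε hε
  obtain ⟨c, hc⟩ := hs ε hε
  obtain ⟨c', hc'⟩ := ht ε hε
  refine ⟨c + c', ?_⟩
  filter_upwards [hc, hc'] with n h1 h2
  linarith

lemma Up.of_le {s t : ℕ → ℝ} {r : ℝ} (ht : Up t r) (h : ∀ n, s n ≤ t n) : Up s r := by
  intro ε hε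
  obtain ⟨c, hc⟩ := ht ε hε
  exact ⟨c, hc.mono fun n hn => (h n).trans hn⟩

lemma Low.of_le {s t : ℕ → ℝ} {r : ℝ} (hs : Low s r) (h : ∀ n, s n ≤ t n) : Low t r := by
  intro ε hε
  obtain ⟨c, hc0, hc⟩ := hs ε hε
  exact ⟨c, hc0, hc.mono fun n hn => hn.trans (h n)⟩

lemma Up.of_small {s : ℕ → ℝ} {r δ : ℝ} (hδ : 0 < δ)
    (h : ∀ ε : ℝ, 0 < ε → ε < δ → ∃ c : ℝ, ∀ᶠ n : ℕ in atTop, s n ≤ c * exp ((r + ε) * n)) :
    Up s r := by
  intro ε hε
  obtain ⟨c, hc⟩ := h (min ε (δ / 2)) (by positivity) (lt_of_le_of_lt (min_le_right _ _) (by linarith))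
  refine ⟨|c|, hc.mono fun n hn => hn.trans ?_⟩
  have := min_le_left ε (δ / 2)
  gcongr
  exact le_abs_self c

lemma up_of_tendsto {s : ℕ → ℝ} {r : ℝ} (hs : ∀ n, 0 < s n)
    (h : Tendsto (fun n : ℕ => log (s n) / n) atTop (𝓝 r)) : Up s r := by
  intro ε hε
  refine ⟨1, ?_⟩
  filter_upwards [h.eventually (gt_mem_nhds (show r < r + ε by linarith)), eventually_gt_atTop 0]
    with n h1 h2
  have hn : (0 : ℝ) < n := by exact_mod_cast h2
  rw [div_lt_iff₀ hn] at h1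
  rw [one_mul, ← exp_log (hs n)]
  exact exp_le_exp.2 h1.le

lemma low_of_tendsto {s : ℕ → ℝ} {r : ℝ} (hs : ∀ n, 0 < s n)
    (h : Tendsto (fun n : ℕ => log (s n) / n) atTop (𝓝 r)) : Low s r := by
  intro ε hε
  refine ⟨1, one_pos, ?_⟩
  filter_upwards [h.eventually (lt_mem_nhds (show r - ε < r by linarith)), eventually_gt_atTop 0]
    with n h1 h2
  have hn : (0 : ℝ) < n := by exact_mod_cast h2
  rw [lt_div_iff₀ hn] at h1
  rw [one_mul, ← exp_log (hs n)]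
  exact exp_le_exp.2 h1.le

lemma tendsto_of_up_low {s : ℕ → ℝ} {r : ℝ} (hs : ∀ n, 0 < s n) (hu : Up s r) (hl : Low s r) :
    Tendsto (fun n : ℕ => log (s n) / n) atTop (𝓝 r) := by
  rw [Metric.tendsto_nhds]
  intro ε hε
  obtain ⟨c, hc0, hc⟩ := hu.all (half_pos hε)
  obtain ⟨c', hc0', hc'⟩ := hl (ε / 2) (half_pos hε)
  have t1 := (tendsto_const_div_atTop_nhds_zero_nat (log c)).eventually
    (gt_mem_nhds (half_pos hε))
  have t2 := (tendsto_const_div_atTop_nhds_zero_nat (log c')).eventually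
    (lt_mem_nhds (show -(ε / 2) < 0 by linarith))
  filter_upwards [hc', t1, t2, eventually_gt_atTop 0] with n h1 h2 h3 h4
  have hn : (0 : ℝ) < n := by exact_mod_cast h4
  have h5 := log_le_log (hs n) (hc n)
  have h6 := log_le_log (by positivity) h1
  rw [log_mul hc0.ne' (exp_pos _).ne', log_exp] at h5
  rw [log_mul hc0'.ne' (exp_pos _).ne', log_exp] at h6
  rw [div_lt_iff₀ hn] at h2
  rw [lt_div_iff₀ hn] at h3
  rw [Real.dist_eq, abs_lt, lt_sub_iff_add_lt, sub_lt_iff_lt_add, lt_div_iff₀ hn, div_lt_iff₀ hn]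
  constructor <;> nlinarith

lemma rate_nonneg {b : ℕ → ℝ} {β : ℝ} (hb : ∀ n, 1 ≤ b n)
    (h : Tendsto (fun n : ℕ => log (b n) / n) atTop (𝓝 β)) : 0 ≤ β :=
  ge_of_tendsto' h fun n => div_nonneg (log_nonneg (hb n)) (by positivity)

lemma up_of_nonLacunary {b u : ℕ → ℝ} {d : ℕ → ℕ} {D : ℕ} {C β : ℝ} (hβ : 0 ≤ β) (hC : 0 ≤ C)
    (hb : Up b β) (hu0 : ∀ n, 0 ≤ u n) (hd : ∀ n, d n ≤ D)
    (hu : ∀ n, u (n + 1) ≤ d n * u n + C * b n) (hl : NonLacunary {n | d n = 0}) : Up u β := by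
  intro ε hε
  obtain ⟨c, hc0, hc⟩ := hb.all (half_pos hε)
  set κ : ℝ := log ((D : ℝ) + 1) + 1 with hκ
  have hlog : 0 ≤ log ((D : ℝ) + 1) := log_nonneg (by simp)
  have hκ0 : 0 < κ := by linarith
  refine ⟨C * c, ?_⟩
  have h1 := hl (ε / 2 / κ) (by positivity)
  rw [eventually_atTop] at h1 ⊢
  obtain ⟨N, hN⟩ := h1
  refine ⟨N + 1, fun n hn => ?_⟩
  obtain ⟨n, rfl⟩ : ∃ m, n = m + 1 := ⟨n - 1, by omega⟩
  obtain ⟨m, hm, hm1, hm2⟩ := hN n (by omega)
  set B : ℝ := C * c * exp ((β + ε / 2) * n) with hB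
  have hB0 : 0 ≤ B := by positivity
  have hbB : ∀ k ≤ n, C * b k ≤ B := by
    intro k hk
    rw [hB, mul_assoc]
    apply mul_le_mul_of_nonneg_left _ hC
    refine (hc k).trans ?_
    have : (k : ℝ) ≤ n := by exact_mod_cast hk
    gcongr
  have key : ∀ j, m + j ≤ n → u (m + j + 1) ≤ B * ((D : ℝ) + 1) ^ j := by
    intro j
    induction j with
    | zero =>
      intro _
      have h2 := hu m
      have h3 : d m = 0 := hm
      have := hbB m hm2
      simp only [h3, Nat.cast_zero, zero_mul, zero_add] at h2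
      simpa using h2.trans this
    | succ j ih =>
      intro hj
      have h2 := ih (by omega)
      have h3 := hu (m + j + 1)
      have h4 := hbB (m + j + 1) (by omega)
      have h5 : (d (m + j + 1) : ℝ) ≤ D := by exact_mod_cast hd _
      have h6 : (1 : ℝ) ≤ ((D : ℝ) + 1) ^ j := one_le_pow₀ (by simp)
      have h7 : (d (m + j + 1) : ℝ) * u (m + j + 1) ≤ D * (B * ((D : ℝ) + 1) ^ j) :=
        mul_le_mul h5 h2 (hu0 _) (by positivity)
      have h8 : B ≤ B * ((D : ℝ) + 1) ^ j := le_mul_of_one_le_right hB0 h6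
      rw [← add_assoc, pow_succ]
      nlinarith
  obtain ⟨j, rfl⟩ := Nat.exists_eq_add_of_le hm2
  refine (key j le_rfl).trans ?_
  have h2 : ((D : ℝ) + 1) ^ j = exp (j * log ((D : ℝ) + 1)) := by
    rw [exp_nat_mul, exp_log (by positivity)]
  rw [h2, hB, mul_assoc (C * c), ← exp_add]
  apply mul_le_mul_of_nonneg_left _ (by positivity)
  apply exp_le_exp.2
  push_cast at hm1 ⊢
  have h3 : (j : ℝ) ≤ ε / 2 / κ * (m + j) := by linarith
  have h4 : (j : ℝ) * log ((D : ℝ) + 1) ≤ j * κ :=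
    mul_le_mul_of_nonneg_left (by linarith) (by positivity)
  have h5 : (j : ℝ) * κ ≤ ε / 2 * (m + j) := by
    have := mul_le_mul_of_nonneg_right h3 hκ0.le
    rwa [show ε / 2 / κ * (m + j) * κ = ε / 2 * (m + j) by field_simp] at this
  nlinarith

/-- uniform averages of `log (d l)` over windows -/
def UA (d : ℕ → ℕ) (ℓ : ℝ) : Prop :=
  ∀ ε : ℝ, 0 < ε → ∃ c : ℝ, ∀ m L : ℕ, |∑ l ∈ Ico m (m + L), log (d l) - ℓ * L| ≤ ε * L + c

lemma periodic_sum {φ : ℕ → ℝ} {k : ℕ} (hk : 0 < k) (hφ : ∀ n, φ (n + k) = φ n) {M : ℝ}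
    (hM : ∀ n, |φ n| ≤ M) (m L : ℕ) :
    |∑ l ∈ Ico m (m + L), φ l - (∑ i ∈ range k, φ i) / k * L| ≤ 2 * k * M := by
  have hM0 : 0 ≤ M := (abs_nonneg _).trans (hM 0)
  have hper : ∀ m, ∑ l ∈ Ico m (m + k), φ l = ∑ i ∈ range k, φ i := by
    intro m
    induction m with
    | zero => simp
    | succ m ih =>
      rw [← ih]
      have h1 := sum_Ico_succ_top (show m ≤ m + k by omega) φ
      have h2 := sum_eq_sum_Ico_succ_bot (show m < m + k + 1 by omega) φ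
      rw [show m + 1 + k = m + k + 1 by ring]
      rw [hφ] at h1
      linarith
  have hk' : (0 : ℝ) < k := by exact_mod_cast hk
  have hℓ : |(∑ i ∈ range k, φ i) / k| ≤ M := by
    rw [abs_div, abs_of_pos hk', div_le_iff₀ hk']
    refine (abs_sum_le_sum_abs _ _).trans ?_
    calc ∑ i ∈ range k, |φ i| ≤ ∑ _i ∈ range k, M := sum_le_sum fun i _ => hM i
      _ = M * k := by simp [mul_comm]
  induction L using Nat.strong_induction_on with
  | _ L ih =>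
    by_cases hL : L < k
    · have h1 : |∑ l ∈ Ico m (m + L), φ l| ≤ L * M := by
        refine (abs_sum_le_sum_abs _ _).trans ?_
        calc ∑ i ∈ Ico m (m + L), |φ i| ≤ ∑ _i ∈ Ico m (m + L), M := sum_le_sum fun i _ => hM i
          _ = L * M := by simp
      have h2 : |(∑ i ∈ range k, φ i) / k * L| ≤ M * L := by
        rw [abs_mul, Nat.abs_cast]
        exact mul_le_mul_of_nonneg_right hℓ (by positivity)
      have h3 : (L : ℝ) ≤ k := by exact_mod_cast hL.le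
      have h4 := abs_sub (∑ l ∈ Ico m (m + L), φ l) ((∑ i ∈ range k, φ i) / k * L)
      nlinarith
    · obtain ⟨L, rfl⟩ := Nat.exists_eq_add_of_le' (not_lt.1 hL)
      have h1 := ih L (by omega)
      have h2 := sum_Ico_consecutive φ (show m ≤ m + L by omega) (show m + L ≤ m + L + k by omega)
      rw [← add_assoc, ← h2, hper]
      have h3 : (∑ i ∈ range k, φ i) / k * ((L + k : ℕ) : ℝ)
          = (∑ i ∈ range k, φ i) / k * L + ∑ i ∈ range k, φ i := by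
        push_cast
        field_simp
      rw [h3]
      rwa [add_sub_add_right_eq_sub]

lemma ua_of_BZ {d G : ℕ → ℕ} {D k : ℕ} (hk : 0 < k) (hd : ∀ n, d n ≤ D) (hG : ∀ n, G n ≤ D)
    (hper : ∀ n, G (n + k) = G n) (hZ : BZ {n | d n ≠ G n}) : ∃ ℓ, UA d ℓ := by
  classical
  set M : ℝ := log ((D : ℝ) + 1) with hM
  have hM0 : 0 ≤ M := log_nonneg (by simp)
  have hb : ∀ x : ℕ, x ≤ D → 0 ≤ log (x : ℝ) ∧ log (x : ℝ) ≤ M := by
    intro x hx
    refine ⟨log_natCast_nonneg x, ?_⟩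
    rcases Nat.eq_zero_or_pos x with rfl | h0
    · simpa using hM0
    · apply log_le_log (by exact_mod_cast h0)
      have : (x : ℝ) ≤ D := by exact_mod_cast hx
      linarith
  refine ⟨(∑ i ∈ range k, log (G i)) / k, fun ε hε => ?_⟩
  obtain ⟨c, hc⟩ := hZ (ε / (M + 1)) (by positivity)
  refine ⟨2 * k * M + M * |c|, fun m L => ?_⟩
  have h1 := periodic_sum (φ := fun n => log (G n)) hk (fun n => by simp only [hper]) (M := M)
    (fun n => by rw [abs_of_nonneg (hb _ (hG n)).1]; exact (hb _ (hG n)).2) m L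
  have h2 : |∑ l ∈ Ico m (m + L), log (d l) - ∑ l ∈ Ico m (m + L), log (G l)|
      ≤ M * cnt {n | d n ≠ G n} m L := by
    rw [← sum_sub_distrib]
    refine (abs_sum_le_sum_abs _ _).trans ?_
    unfold cnt
    rw [card_filter]
    push_cast
    rw [mul_sum]
    refine sum_le_sum fun l _ => ?_
    by_cases h : d l = G l
    · simp [h]
    · have e1 := hb _ (hd l)
      have e2 := hb _ (hG l)
      simp only [Set.mem_ofPred_eq, ne_eq, h, not_false_eq_true, if_true, mul_one]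
      rw [abs_le]
      constructor <;> linarith [e1.1, e1.2, e2.1, e2.2]
  have h3 : M * cnt {n | d n ≠ G n} m L ≤ M * (ε / (M + 1) * L + |c|) :=
    mul_le_mul_of_nonneg_left ((hc m L).trans (by linarith [le_abs_self c])) hM0
  have h4 : M * (ε / (M + 1) * L) ≤ ε * L := by
    rw [← mul_assoc]
    apply mul_le_mul_of_nonneg_right _ (by positivity)
    rw [mul_div_assoc', div_le_iff₀ (by positivity)]
    nlinarith
  have h5 := abs_sub_le (∑ l ∈ Ico m (m + L), log (d l : ℝ)) (∑ l ∈ Ico m (m + L), log (G l : ℝ))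
    ((∑ i ∈ range k, log (G i : ℝ)) / k * L)
  nlinarith

section noCollapse

variable {b u : ℕ → ℝ} {d : ℕ → ℕ} {n₁ : ℕ} {C β ℓ : ℝ}

/-- the product of the degrees from `n₁` on -/
noncomputable def PP (d : ℕ → ℕ) (m n : ℕ) : ℝ := exp (∑ l ∈ Ico m n, log (d l))

lemma PP_pos (m n : ℕ) : 0 < PP d m n := exp_pos _

lemma PP_mul {m n k : ℕ} (h1 : m ≤ n) (h2 : n ≤ k) : PP d m n * PP d n k = PP d m k := by
  unfold PP
  rw [← exp_add, sum_Ico_consecutive _ h1 h2]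

lemma PP_succ (hd : ∀ n, n₁ ≤ n → 1 ≤ d n) {n : ℕ} (h : n₁ ≤ n) :
    PP d n₁ (n + 1) = PP d n₁ n * d n := by
  unfold PP
  rw [sum_Ico_succ_top h, exp_add, exp_log (by exact_mod_cast hd n h)]

lemma v_step (hd : ∀ n, n₁ ≤ n → 1 ≤ d n) (hu : ∀ n, |u (n + 1) - d n * u n| ≤ C * b n)
    {n : ℕ} (h : n₁ ≤ n) :
    |u (n + 1) / PP d n₁ (n + 1) - u n / PP d n₁ n| ≤ C * b n / PP d n₁ (n + 1) := by
  have h1 : (0 : ℝ) < d n := by exact_mod_cast hd n h
  have h2 := PP_pos (d := d) n₁ n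
  have h3 : u (n + 1) / PP d n₁ (n + 1) - u n / PP d n₁ n
      = (u (n + 1) - d n * u n) / PP d n₁ (n + 1) := by
    rw [PP_succ hd h]
    field_simp
  rw [h3, abs_div, abs_of_pos (PP_pos _ _)]
  exact div_le_div_of_nonneg_right (hu n) (PP_pos _ _).le

lemma UA.bounds (h : UA d ℓ) {ε : ℝ} (hε : 0 < ε) : ∃ c : ℝ, 0 < c ∧ ∀ m L : ℕ,
    PP d m (m + L) ≤ c * exp ((ℓ + ε) * L) ∧ exp ((ℓ - ε) * L) ≤ c * PP d m (m + L) := by
  obtain ⟨c, hc⟩ := h ε hε
  refine ⟨exp c, exp_pos _, fun m L => ?_⟩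
  have := abs_le.1 (hc m L)
  unfold PP
  rw [← exp_add, ← exp_add]
  constructor <;> apply exp_le_exp.2 <;> linarith [this.1, this.2]

lemma up_max (hβ : 0 ≤ β) (hC : 0 ≤ C) (hb : Up b β) (hu0 : ∀ n, 0 ≤ u n)
    (hd : ∀ n, n₁ ≤ n → 1 ≤ d n) (hu : ∀ n, |u (n + 1) - d n * u n| ≤ C * b n) (hUA : UA d ℓ) :
    Up u (max ℓ β) := by
  intro ε hε
  set r := max ℓ β with hr
  have hr0 : 0 ≤ r := hβ.trans (le_max_right _ _)
  obtain ⟨c, hc0, hc⟩ := (hb.mono (le_max_right ℓ β)).all (half_pos hε)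
  obtain ⟨c', hc0', hc'⟩ := hUA.bounds (half_pos hε)
  have hPP : ∀ m L : ℕ, PP d m (m + L) ≤ c' * exp ((r + ε / 2) * L) := by
    intro m L
    refine (hc' m L).1.trans ?_
    have := le_max_left ℓ β
    gcongr
  have hv : ∀ j, u (n₁ + j) / PP d n₁ (n₁ + j) ≤
      u n₁ + ∑ i ∈ range j, C * b (n₁ + i) / PP d n₁ (n₁ + i + 1) := by
    intro j
    induction j with
    | zero => simp [PP]
    | succ j ih =>
      have := (abs_le.1 (v_step hd hu (show n₁ ≤ n₁ + j by omega))).2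
      rw [sum_range_succ, ← add_assoc]
      linarith
  refine ⟨c' * (u n₁ + C * c * (2 / ε)), ?_⟩
  filter_upwards [eventually_ge_atTop n₁] with n hn
  obtain ⟨j, rfl⟩ := Nat.exists_eq_add_of_le hn
  have h1 := hv j
  rw [div_le_iff₀ (PP_pos _ _), add_mul, sum_mul] at h1
  set E := exp ((r + ε / 2) * (n₁ + j : ℕ)) with hE
  have h2 : u n₁ * PP d n₁ (n₁ + j) ≤ u n₁ * (c' * E) := by
    apply mul_le_mul_of_nonneg_left _ (hu0 _)
    refine (hPP n₁ j).trans ?_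
    have : (j : ℝ) ≤ (n₁ + j : ℕ) := by exact_mod_cast Nat.le_add_left j n₁
    rw [hE]
    gcongr
  have h3 : ∑ i ∈ range j, C * b (n₁ + i) / PP d n₁ (n₁ + i + 1) * PP d n₁ (n₁ + j)
      ≤ ∑ _i ∈ range j, C * c * c' * E := by
    refine sum_le_sum fun i hi => ?_
    obtain ⟨L, rfl⟩ := Nat.exists_eq_add_of_lt (mem_range.1 hi)
    have e1 := PP_mul (d := d) (show n₁ ≤ n₁ + i + 1 by omega)
      (show n₁ + i + 1 ≤ n₁ + (i + L + 1) by omega)
    have e2 := PP_pos (d := d) n₁ (n₁ + i + 1)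
    rw [← e1, ← mul_assoc, div_mul_cancel₀ _ e2.ne',
      show n₁ + (i + L + 1) = n₁ + i + 1 + L by ring]
    calc C * b (n₁ + i) * PP d (n₁ + i + 1) (n₁ + i + 1 + L)
        ≤ C * (c * exp ((r + ε / 2) * (n₁ + i : ℕ))) * (c' * exp ((r + ε / 2) * L)) := by
          apply mul_le_mul (mul_le_mul_of_nonneg_left (hc _) hC) (hPP _ _) (PP_pos _ _).le
          positivity
      _ = C * c * c' * exp ((r + ε / 2) * (n₁ + i : ℕ) + (r + ε / 2) * L) := by
          rw [exp_add]; ring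
      _ ≤ C * c * c' * E := by
          apply mul_le_mul_of_nonneg_left _ (by positivity)
          apply exp_le_exp.2
          push_cast
          nlinarith
  simp only [sum_const, card_range, nsmul_eq_mul] at h3
  have h4 : (j : ℝ) ≤ 2 / ε * exp (ε / 2 * (n₁ + j : ℕ)) := by
    have e1 := add_one_le_exp (ε / 2 * (n₁ + j : ℕ))
    have e2 : (j : ℝ) ≤ (n₁ + j : ℕ) := by exact_mod_cast Nat.le_add_left j n₁
    have e3 : ε / 2 * j ≤ exp (ε / 2 * (n₁ + j : ℕ)) := by nlinarith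
    have e4 := mul_le_mul_of_nonneg_left e3 (show 0 ≤ 2 / ε by positivity)
    rwa [show 2 / ε * (ε / 2 * j) = j by field_simp] at e4
  have h5 : (1 : ℝ) ≤ exp (ε / 2 * (n₁ + j : ℕ)) := one_le_exp (by positivity)
  have h6 : exp ((r + ε) * (n₁ + j : ℕ)) = E * exp (ε / 2 * (n₁ + j : ℕ)) := by
    rw [hE, ← exp_add]; congr 1; ring
  rw [h6]
  have hE0 : 0 < E := exp_pos _
  have h7 : (j : ℝ) * (C * c * c' * E) ≤ 2 / ε * exp (ε / 2 * (n₁ + j : ℕ)) * (C * c * c' * E) :=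
    mul_le_mul_of_nonneg_right h4 (by positivity)
  have h8 : u n₁ * (c' * E) ≤ u n₁ * (c' * E) * exp (ε / 2 * (n₁ + j : ℕ)) :=
    le_mul_of_one_le_right (by have := hu0 n₁; positivity) h5
  nlinarith

lemma geom_step (hβ : 0 ≤ β) (hC : 0 ≤ C) (hb : Up b β)
    (hd : ∀ n, n₁ ≤ n → 1 ≤ d n) (hu : ∀ n, |u (n + 1) - d n * u n| ≤ C * b n) (hUA : UA d ℓ)
    {ε : ℝ} (hε : 0 < ε) (hεℓ : ε < (ℓ - β) / 2) : ∃ A : ℝ, ∀ n, n₁ ≤ n → ∀ j : ℕ,
      dist (u (n + j) / PP d n₁ (n + j)) (u (n + (j + 1)) / PP d n₁ (n + (j + 1))) ≤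
        A * exp ((β + ε) * n) / PP d n₁ n * exp (β + ε - (ℓ - ε)) ^ j := by
  obtain ⟨c, hc0, hc⟩ := hb.all hε
  obtain ⟨c', hc0', hc'⟩ := hUA.bounds hε
  refine ⟨C * c * c', fun n hn j => ?_⟩
  rw [dist_comm, Real.dist_eq, ← add_assoc]
  refine (v_step hd hu (show n₁ ≤ n + j by omega)).trans ?_
  have e1 := PP_mul (d := d) hn (show n ≤ n + (j + 1) by omega)
  have e2 := (hc' n (j + 1)).2
  have e3 := PP_pos (d := d) n₁ n
  have e4 := PP_pos (d := d) n (n + (j + 1))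
  rw [add_assoc n j 1, ← e1, div_le_iff₀ (by positivity), ← exp_nat_mul]
  have e5 : C * c * c' * exp ((β + ε) * n) / PP d n₁ n * exp (j * (β + ε - (ℓ - ε))) *
      (PP d n₁ n * PP d n (n + (j + 1))) =
      C * (c * (exp ((β + ε) * n) * exp (j * (β + ε - (ℓ - ε))) * (c' * PP d n (n + (j + 1))))) := by
    field_simp
  rw [e5]
  apply mul_le_mul_of_nonneg_left _ hC
  refine (hc _).trans ?_
  apply mul_le_mul_of_nonneg_left _ hc0.le
  refine le_trans ?_ (mul_le_mul_of_nonneg_left e2 (by positivity))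
  rw [← exp_add, ← exp_add]
  apply exp_le_exp.2
  push_cast
  nlinarith

lemma dichotomy (hβ : 0 ≤ β) (hC : 0 ≤ C) (hb : Up b β) (hu0 : ∀ n, 0 ≤ u n)
    (hd : ∀ n, n₁ ≤ n → 1 ≤ d n) (hu : ∀ n, |u (n + 1) - d n * u n| ≤ C * b n) (hUA : UA d ℓ)
    (hlt : β < ℓ) : Up u β ∨ Low u ℓ := by
  have hq : ∀ ε : ℝ, ε < (ℓ - β) / 2 → exp (β + ε - (ℓ - ε)) < 1 := fun ε h =>
    exp_lt_one_iff.2 (by linarith)
  obtain ⟨L, hL⟩ : ∃ L, Tendsto (fun n => u n / PP d n₁ n) atTop (𝓝 L) := by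
    obtain ⟨A, hA⟩ := geom_step hβ hC hb hd hu hUA (ε := (ℓ - β) / 4) (by linarith) (by linarith)
    obtain ⟨L, hL⟩ := cauchySeq_tendsto_of_complete (cauchySeq_of_le_geometric _ _
      (hq ((ℓ - β) / 4) (by linarith)) (f := fun j => u (n₁ + j) / PP d n₁ (n₁ + j))
      (hA n₁ le_rfl))
    refine ⟨L, ?_⟩
    rw [← tendsto_add_atTop_iff_nat n₁]
    simpa [add_comm] using hL
  have hL0 : 0 ≤ L := ge_of_tendsto' hL fun n => div_nonneg (hu0 n) (PP_pos _ _).le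
  rcases hL0.eq_or_lt with rfl | hLpos
  · left
    apply Up.of_small (show 0 < (ℓ - β) / 2 by linarith)
    intro ε hε hεℓ
    obtain ⟨A, hA⟩ := geom_step hβ hC hb hd hu hUA hε hεℓ
    refine ⟨A / (1 - exp (β + ε - (ℓ - ε))), ?_⟩
    filter_upwards [eventually_ge_atTop n₁] with n hn
    have ht : Tendsto (fun j => u (n + j) / PP d n₁ (n + j)) atTop (𝓝 0) := by
      have := (tendsto_add_atTop_iff_nat n).2 hL
      simpa [add_comm] using this
    have h1 := dist_le_of_le_geometric_of_tendsto₀ _ _ (hq ε hεℓ) (hA n hn) ht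
    have e3 := PP_pos (d := d) n₁ n
    have e4 : 0 < 1 - exp (β + ε - (ℓ - ε)) := by linarith [hq ε hεℓ]
    rw [add_zero, Real.dist_eq, sub_zero, abs_of_nonneg (div_nonneg (hu0 n) e3.le),
      div_le_iff₀ e3] at h1
    refine h1.trans (le_of_eq ?_)
    field_simp
  · right
    intro ε hε
    obtain ⟨c', hc0', hc'⟩ := hUA.bounds hε
    refine ⟨L / 2 / c' * exp (-((ℓ - ε) * n₁)), by positivity, ?_⟩
    filter_upwards [eventually_ge_atTop n₁, hL.eventually (lt_mem_nhds (half_lt_self hLpos))]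
      with n hn h1
    obtain ⟨j, rfl⟩ := Nat.exists_eq_add_of_le hn
    rw [lt_div_iff₀ (PP_pos _ _)] at h1
    refine le_trans ?_ h1.le
    have e2 := (hc' n₁ j).2
    rw [mul_assoc, ← exp_add, show -((ℓ - ε) * n₁) + (ℓ - ε) * (n₁ + j : ℕ) = (ℓ - ε) * j by
      push_cast; ring, div_mul_eq_mul_div, div_le_iff₀ hc0']
    nlinarith

end noCollapse

/-- the growth lemma -/
lemma growth {b u H : ℕ → ℝ} {d : ℕ → ℕ} {D : ℕ} {C β : ℝ} (hC : 0 ≤ C) (hb1 : ∀ n, 1 ≤ b n)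
    (hb : Tendsto (fun n : ℕ => log (b n) / n) atTop (𝓝 β)) (hu0 : ∀ n, 0 ≤ u n)
    (hd : ∀ n, d n ≤ D) (hu : ∀ n, |u (n + 1) - d n * u n| ≤ C * b n) (hUA : ∃ ℓ, UA d ℓ)
    (hcol : {n | d n = 0}.Finite ∨ NonLacunary {n | d n = 0})
    (h1 : ∀ n, b n ≤ H n) (h2 : ∀ n, u n ≤ H n) (h3 : ∀ n, H n ≤ b n + u n) :
    ∃ α, Tendsto (fun n : ℕ => log (H n) / n) atTop (𝓝 α) := by
  have hβ := rate_nonneg hb1 hb
  have hb0 : ∀ n, 0 < b n := fun n => lt_of_lt_of_le one_pos (hb1 n)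
  have hH0 : ∀ n, 0 < H n := fun n => lt_of_lt_of_le (hb0 n) (h1 n)
  have hU := up_of_tendsto hb0 hb
  have hL := low_of_tendsto hb0 hb
  have fin1 : Up u β → ∃ α, Tendsto (fun n : ℕ => log (H n) / n) atTop (𝓝 α) := fun h =>
    ⟨β, tendsto_of_up_low hH0 ((hU.add h).of_le h3) (hL.of_le h1)⟩
  rcases hcol with hfin | hl
  · obtain ⟨ℓ, hUA⟩ := hUA
    obtain ⟨n₀, hn₀⟩ := hfin.bddAbove
    have hd1 : ∀ n, n₀ + 1 ≤ n → 1 ≤ d n := by
      intro n hn
      by_contra h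
      have : n ≤ n₀ := hn₀ (show d n = 0 by omega)
      omega
    have hmax := up_max hβ hC hU hu0 hd1 hu hUA
    rcases le_or_gt ℓ β with hle | hlt
    · rw [max_eq_right hle] at hmax
      exact fin1 hmax
    · rw [max_eq_left hlt.le] at hmax
      rcases dichotomy hβ hC hU hu0 hd1 hu hUA hlt with h | h
      · exact fin1 h
      · exact ⟨ℓ, tendsto_of_up_low hH0 (((hU.mono hlt.le).add hmax).of_le h3) (h.of_le h2)⟩
  · exact fin1 (up_of_nonLacunary hβ hC hU hu0 hd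
      (fun n => by linarith [(abs_le.1 (hu n)).2]) hl)

lemma tendsto_rpow_iff {s : ℕ → ℝ} (hs : ∀ n, 1 ≤ s n) :
    (∃ α, Tendsto (fun n : ℕ => s n ^ (1 / (n : ℝ))) atTop (𝓝 α)) ↔
      ∃ α, Tendsto (fun n : ℕ => log (s n) / n) atTop (𝓝 α) := by
  have hs0 : ∀ n, 0 < s n := fun n => lt_of_lt_of_le one_pos (hs n)
  have e : ∀ n : ℕ, s n ^ (1 / (n : ℝ)) = exp (log (s n) / n) := by
    intro n
    rw [rpow_def_of_pos (hs0 n)]
    congr 1
    ring
  simp only [e]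
  constructor
  · rintro ⟨α, h⟩
    have h1 : 1 ≤ α := ge_of_tendsto' h fun n =>
      one_le_exp (div_nonneg (log_nonneg (hs n)) (by positivity))
    refine ⟨log α, ?_⟩
    simpa using h.log (by linarith)
  · rintro ⟨α, h⟩
    exact ⟨exp α, h.rexp⟩

end Pool.Agent.MP_195eb9_ag
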