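import Pool.Agent.MP_195eb9_ag.Tower

/-! A lacunary return set produces a point without arithmetic degree. -/

namespace Pool.Agent.MP_195eb9_ag

open Filter Topology Finset Height Polynomial Real

lemma rate_le_of_frequently {s : ℕ → ℝ} {α c r : ℝ} (hs : ∀ n, 0 < s n)
    (h : Tendsto (fun n : ℕ => log (s n) / n) atTop (𝓝 α))
    (hf : ∃ᶠ n : ℕ in atTop, s n ≤ c * exp (r * n)) : α ≤ r := by
  by_contra hlt
  push Not at hlt
  have t1 := (tendsto_const_div_atTop_nhds_zero_nat (log c)).eventually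
    (gt_mem_nhds (show 0 < (α - r) / 2 by linarith))
  have t2 := h.eventually (lt_mem_nhds (show (α + r) / 2 < α by linarith))
  obtain ⟨n, h1, h2, h3, h4⟩ := (hf.and_eventually (t1.and (t2.and (eventually_gt_atTop 0)))).exists
  have hn : (0 : ℝ) < n := by exact_mod_cast h4
  have hc : 0 < c := by
    by_contra hc
    have : c * exp (r * n) ≤ 0 := mul_nonpos_of_nonpos_of_nonneg (not_lt.1 hc) (exp_pos _).le
    linarith [hs n]
  have h5 := log_le_log (hs n) h1
  rw [log_mul hc.ne' (exp_pos _).ne', log_exp] at h5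
  rw [div_lt_iff₀ hn] at h2
  rw [lt_div_iff₀ hn] at h3
  nlinarith

lemma le_rate_of_frequently {s : ℕ → ℝ} {α c r : ℝ} (hc : 0 < c)
    (h : Tendsto (fun n : ℕ => log (s n) / n) atTop (𝓝 α))
    (hf : ∃ᶠ n : ℕ in atTop, c * exp (r * n) ≤ s n) : r ≤ α := by
  by_contra hlt
  push Not at hlt
  have t1 := (tendsto_const_div_atTop_nhds_zero_nat (log c)).eventually
    (lt_mem_nhds (show -((r - α) / 2) < 0 by linarith))
  have t2 := h.eventually (gt_mem_nhds (show α < (α + r) / 2 by linarith))
  obtain ⟨n, h1, h2, h3, h4⟩ := (hf.and_eventually (t1.and (t2.and (eventually_gt_atTop 0)))).exists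
  have hn : (0 : ℝ) < n := by exact_mod_cast h4
  have h5 := log_le_log (by positivity) h1
  rw [log_mul hc.ne' (exp_pos _).ne', log_exp] at h5
  rw [lt_div_iff₀ hn] at h2
  rw [div_lt_iff₀ hn] at h3
  nlinarith

variable {K : Type*} [Field K]

lemma skew_indep {m : ℕ} (g : Fin m → MvPolynomial (Fin m) K) (hg : AlgebraicIndependent K g)
    (P : (MvPolynomial (Fin m) K)[X]) (hP : P.natDegree ≠ 0) :
    AlgebraicIndependent K (Fin.cons ((MvPolynomial.finSuccEquiv K m).symm P)
      (fun j => MvPolynomial.rename Fin.succ (g j)) :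
        Fin (m + 1) → MvPolynomial (Fin (m + 1)) K) := by
  have hr : ∀ p : MvPolynomial (Fin m) K,
      MvPolynomial.finSuccEquiv K m (MvPolynomial.rename Fin.succ p) = C p := by
    intro p
    induction p using MvPolynomial.induction_on with
    | C a => simp [MvPolynomial.finSuccEquiv_apply]
    | add p q hp hq => simp only [map_add, hp, hq]
    | mul_X p v hp =>
      simp only [map_mul, hp, MvPolynomial.rename_X, MvPolynomial.finSuccEquiv_X_succ]
  have key : ∀ Q : MvPolynomial (Fin (m + 1)) K,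
      MvPolynomial.finSuccEquiv K m (MvPolynomial.aeval
        (Fin.cons ((MvPolynomial.finSuccEquiv K m).symm P)
          (fun j => MvPolynomial.rename Fin.succ (g j)) :
            Fin (m + 1) → MvPolynomial (Fin (m + 1)) K) Q) =
      ((MvPolynomial.finSuccEquiv K m Q).map (MvPolynomial.aeval g).toRingHom).comp P := by
    intro Q
    induction Q using MvPolynomial.induction_on with
    | C a => simp [MvPolynomial.finSuccEquiv_apply]
    | add p q hp hq => simp only [map_add, Polynomial.map_add, add_comp, hp, hq]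
    | mul_X p v hp =>
      simp only [map_mul, Polynomial.map_mul, mul_comp, hp, MvPolynomial.aeval_X]
      congr 1
      refine Fin.cases ?_ (fun j => ?_) v
      · simp [MvPolynomial.finSuccEquiv_X_zero]
      · simp [MvPolynomial.finSuccEquiv_X_succ, hr]
  rw [AlgebraicIndependent, injective_iff_map_eq_zero]
  intro Q hQ
  have h1 := key Q
  rw [hQ, map_zero, eq_comm, comp_eq_zero_iff] at h1
  rcases h1 with h1 | ⟨-, h1⟩
  · rw [Polynomial.map_eq_zero_iff hg] at h1
    simpa using h1
  · exact absurd (by rw [h1]; simp) hP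

theorem lacunary [NumberField K] {m : ℕ} (g : Fin m → MvPolynomial (Fin m) K)
    (hg : AlgebraicIndependent K g) (y : ℕ → Fin m → K)
    (hy : ∀ n j, y (n + 1) j = MvPolynomial.eval (y n) (g j))
    (V : Set (MvPolynomial (Fin m) K)) (S : Set ℕ)
    (hS : ∀ n, n ∈ S ↔ ∀ p ∈ V, MvPolynomial.eval (y n) p = 0)
    (hinf : S.Infinite) (hlac : ¬ NonLacunary S) :
    ∃ (f : Fin (m + 1) → MvPolynomial (Fin (m + 1)) K) (x : ℕ → Fin (m + 1) → K),
      AlgebraicIndependent K f ∧ (∀ j : Fin m, f j.succ = MvPolynomial.rename Fin.succ (g j)) ∧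
      (∀ n (j : Fin m), x n j.succ = y n j) ∧
      (∀ n j, x (n + 1) j = MvPolynomial.eval (x n) (f j)) ∧
      ¬ ∃ α : ℝ, Tendsto (fun n : ℕ =>
        (max 1 (logHeight (Fin.cons 1 (x n) : Fin (m + 2) → K))) ^ (1 / (n : ℝ))) atTop (𝓝 α) := by
  classical
  -- heights along the base orbit
  set B : ℕ → ℝ := fun n => ∑ j, logHeight₁ (y n j) + 1 with hB
  have hb0 : ∀ n, 0 ≤ ∑ j, logHeight₁ (y n j) := fun n => sum_nonneg fun j _ => h_nonneg _
  have hB1 : ∀ n, 1 ≤ B n := fun n => by simp only [hB]; linarith [hb0 n]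
  have hyb : ∀ n j, logHeight₁ (y n j) ≤ ∑ j, logHeight₁ (y n j) := fun n j =>
    single_le_sum (f := fun j => logHeight₁ (y n j)) (fun j _ => h_nonneg _) (mem_univ j)
  obtain ⟨E, hE2, hE⟩ : ∃ E : ℝ, 2 ≤ E ∧ ∀ n, B (n + 1) ≤ E * B n := by
    choose C hC h using fun j => eval_height (g j)
    have hs : 0 ≤ ∑ j, C j := sum_nonneg fun j _ => hC j
    refine ⟨∑ j, C j + 2, by linarith, fun n => ?_⟩
    have h1 : ∑ j, logHeight₁ (y (n + 1) j) ≤ ∑ j, C j * B n :=
      sum_le_sum fun j _ => by rw [hy]; exact h j (y n) _ (hb0 n) (hyb n)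
    rw [← sum_mul] at h1
    have h2 := hB1 n
    have h3 : B (n + 1) = ∑ j, logHeight₁ (y (n + 1) j) + 1 := rfl
    nlinarith
  have hEi : ∀ n i, B (n + i) ≤ E ^ i * B n := by
    intro n i
    induction i with
    | zero => simp
    | succ i ih =>
      refine (hE (n + i)).trans ?_
      rw [pow_succ', mul_assoc]
      exact mul_le_mul_of_nonneg_left ih (by linarith)
  -- generators of the ideal
  obtain ⟨R, hR⟩ : ∃ R : (MvPolynomial (Fin m) K)[X],
      ∀ n, n ∈ S ↔ R.map (MvPolynomial.eval (y n)) = 0 := by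
    obtain ⟨k, p, hp⟩ := Submodule.fg_iff_exists_fin_generating_family.1
      (IsNoetherian.noetherian (Ideal.span V))
    refine ⟨∑ j : Fin k, C (p j) * X ^ (j : ℕ), fun n => ?_⟩
    have e1 : (∀ q ∈ V, MvPolynomial.eval (y n) q = 0) ↔
        ∀ j, MvPolynomial.eval (y n) (p j) = 0 := by
      have e2 : ∀ W : Set (MvPolynomial (Fin m) K), (∀ q ∈ W, MvPolynomial.eval (y n) q = 0) ↔
          Ideal.span W ≤ RingHom.ker (MvPolynomial.eval (y n)) := fun W => by
        rw [Ideal.span_le]; rfl
      rw [e2, ← hp]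
      exact (e2 (Set.range p)).symm.trans (by simp)
    rw [hS, e1]
    simp only [Polynomial.map_sum, Polynomial.map_mul, map_C, Polynomial.map_pow, map_X]
    constructor
    · intro h
      simp [h]
    · intro h j
      have := congrArg (fun q : K[X] => q.coeff j) h
      simp only [finsetSum_coeff, coeff_C_mul, coeff_X_pow, coeff_zero] at this
      rw [Finset.sum_eq_single j] at this
      · simpa using this
      · intro b _ hb
        have : (j : ℕ) ≠ b := fun h' => hb (Fin.ext h'.symm)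
        simp [this]
      · simp
  -- an element of positive height
  obtain ⟨c₀, hc₀⟩ : ∃ c₀ : K, 0 < logHeight₁ c₀ := by
    obtain ⟨c, hc⟩ := (NumberField.finite_setOfPred_logHeight₁_le K 0).exists_notMem
    exact ⟨c, not_le.1 hc⟩
  let U : Option (Fin m) → MvPolynomial (Fin m) K := fun o =>
    o.elim (MvPolynomial.C c₀) MvPolynomial.X
  set κ : ℝ := min 1 (logHeight₁ c₀) / (m + 1) with hκ
  have hκ0 : 0 < κ := by positivity
  have hU : ∀ n, ∃ o, κ * B n ≤ logHeight₁ (MvPolynomial.eval (y n) (U o)) := by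
    intro n
    have : ∑ _o : Option (Fin m), κ * B n ≤ ∑ o, logHeight₁ (MvPolynomial.eval (y n) (U o)) := by
      rw [Fintype.sum_option (fun o => logHeight₁ (MvPolynomial.eval (y n) (U o)))]
      simp only [U, Option.elim_none, Option.elim_some, MvPolynomial.eval_C, MvPolynomial.eval_X,
        sum_const, card_univ, Fintype.card_option, Fintype.card_fin, nsmul_eq_mul]
      have e1 : ((m + 1 : ℕ) : ℝ) * (κ * B n) = min 1 (logHeight₁ c₀) * B n := by
        rw [hκ]; push_cast; field_simp
      rw [e1]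
      have e2 := min_le_left 1 (logHeight₁ c₀)
      have e3 := min_le_right 1 (logHeight₁ c₀)
      have e4 := hb0 n
      simp only [hB]
      nlinarith
    obtain ⟨o, -, ho⟩ := exists_le_of_sum_le univ_nonempty this
    exact ⟨o, ho⟩
  -- long gaps
  obtain ⟨ε, hε, o, hgap⟩ : ∃ ε : ℝ, 0 < ε ∧ ∃ o, ∃ᶠ n : ℕ in atTop, ∃ s ∈ S,
      (s : ℝ) < (1 - ε) * n ∧ (∀ t, s < t → t ≤ n → t ∉ S) ∧
      κ * B s ≤ logHeight₁ (MvPolynomial.eval (y s) (U o)) := by
    unfold NonLacunary at hlac
    push Not at hlac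
    obtain ⟨ε, hε, h⟩ := hlac
    refine ⟨ε, hε, ?_⟩
    rw [← frequently_exists]
    obtain ⟨s₀, hs₀⟩ := hinf.nonempty
    refine (h.and_eventually (eventually_ge_atTop s₀)).mono ?_
    rintro n ⟨h1, h2⟩
    have e1 : Nat.findGreatest (· ∈ S) n ∈ S := Nat.findGreatest_spec (P := (· ∈ S)) h2 hs₀
    obtain ⟨o, ho⟩ := hU (Nat.findGreatest (· ∈ S) n)
    refine ⟨o, _, e1, ?_, fun t h3 h4 => Nat.findGreatest_is_greatest h3 h4, ho⟩
    by_contra hle
    exact absurd (h1 _ e1 (not_lt.1 hle)) (not_lt.2 (Nat.findGreatest_le n))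
  have hR0 : R ≠ 0 := by
    rintro rfl
    obtain ⟨n, s, -, h1, h2, -⟩ := hgap.exists
    have h3 : s < n := by
      have : (s : ℝ) < n := lt_of_lt_of_le h1 (by nlinarith [Nat.cast_nonneg (α := ℝ) n])
      exact_mod_cast this
    exact h2 n h3 le_rfl ((hR n).2 (by simp))
  -- constants
  obtain ⟨C₂, hC₂, hRh⟩ : ∃ C₂ : ℝ, 0 ≤ C₂ ∧ ∀ n (z : K),
      logHeight₁ ((R.map (MvPolynomial.eval (y n))).eval z)
        ≤ R.natDegree * logHeight₁ z + C₂ * B n ∧
      (n ∉ S → (R.map (MvPolynomial.eval (y n))).eval z = 0 → logHeight₁ z ≤ C₂ * B n) := by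
    obtain ⟨C₀, hC₀, h₀⟩ := rat_height (K := K) R.natDegree
    obtain ⟨C₁, hC₁, h₁⟩ := pb_map R
    refine ⟨C₀ * (C₁ + 1), by positivity, fun n z => ?_⟩
    have hBn := hB1 n
    have hd : rdeg (R.map (MvPolynomial.eval (y n))) 1 ≤ R.natDegree :=
      rdeg_le_iff.2 ((red_self _ _).mono (max_le natDegree_map_le (by simp)))
    have e1 := h₀ (R.map (MvPolynomial.eval (y n))) 1 (C₁ * B n) z (by positivity) hd
      (h₁ (y n) _ (hb0 n) (hyb n)) (by simpa using PB_X_pow (K := K) 0 (by positivity))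
      (by simp)
    rw [eval_one, ← logHeight₁_eq_logHeight, abs_le] at e1
    have e2 : C₀ * (C₁ * B n + 1) ≤ C₀ * (C₁ + 1) * B n := by
      rw [mul_assoc]
      apply mul_le_mul_of_nonneg_left _ hC₀
      nlinarith
    have hz := h_nonneg z
    refine ⟨?_, fun hn h0 => ?_⟩
    · have : (rdeg (R.map (MvPolynomial.eval (y n))) 1 : ℝ) ≤ R.natDegree := by exact_mod_cast hd
      nlinarith [e1.2]
    · have e3 : 1 ≤ rdeg (R.map (MvPolynomial.eval (y n))) 1 := by
        by_contra hlt
        obtain ⟨A, A', h1, h2, h3, h4⟩ := rdeg_le_iff.1 (show _ ≤ 0 from by omega :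
          rdeg (R.map (MvPolynomial.eval (y n))) 1 ≤ 0)
        rw [eq_C_of_natDegree_le_zero h1, eq_C_of_natDegree_le_zero h2] at h3 h4
        have e4 := congrArg (eval z) h4
        simp only [eval_mul, h0, eval_C, zero_mul, one_mul] at e4
        rw [← e4, map_zero, mul_zero, mul_eq_zero] at h4
        rw [← e4, map_zero] at h3
        rcases h4 with h4 | h4
        · exact hn ((hR n).2 h4)
        · tauto
      have e5 : (1 : ℝ) ≤ rdeg (R.map (MvPolynomial.eval (y n))) 1 := by exact_mod_cast e3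
      have e6 := e1.1
      rw [h0, logHeight₁_zero] at e6
      nlinarith
  obtain ⟨C₃, hC₃, hUh⟩ := eval_height (U o)
  set w : ℝ := totalWeight K * log 2 with hw
  have hw0 : 0 ≤ w := mul_nonneg (by positivity) (log_nonneg (by norm_num))
  obtain ⟨M, hM⟩ := exists_nat_gt ((C₂ * E + 1) / κ)
  rw [div_lt_iff₀ hκ0] at hM
  have hCE : 0 ≤ C₂ * E := by positivity
  obtain ⟨q, hq⟩ := exists_nat_gt (E + exp (log E / ε))
  have hqE : E ≤ q := by linarith [exp_pos (log E / ε)]
  have hq0 : (0 : ℝ) < q := by linarith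
  have hqε : log E < ε * log q := by
    have : log E / ε < log q := by
      rw [lt_log_iff_exp_lt hq0]
      linarith
    rwa [div_lt_iff₀ hε, mul_comm] at this
  obtain ⟨T, hT⟩ := exists_nat_gt ((C₂ + M * C₃ + w) * E)
  set P : (MvPolynomial (Fin m) K)[X] := X ^ (R.natDegree + q + T) * R + C (U o ^ M) with hP
  have hPd : P.natDegree ≠ 0 := by
    have : 0 < q := by exact_mod_cast hq0
    rw [hP, natDegree_add_C, natDegree_mul (by simp) hR0, natDegree_X_pow]
    omega
  let z : ℕ → K := fun n => Nat.rec 0 (fun n zn => (P.map (MvPolynomial.eval (y n))).eval zn) n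
  have hz : ∀ n, z (n + 1) = z n ^ (R.natDegree + q + T) *
      (R.map (MvPolynomial.eval (y n))).eval (z n) + MvPolynomial.eval (y n) (U o) ^ M := by
    intro n
    change (P.map (MvPolynomial.eval (y n))).eval (z n) = _
    simp [hP]
  have hzS : ∀ s ∈ S, logHeight₁ (z (s + 1)) = M * logHeight₁ (MvPolynomial.eval (y s) (U o)) := by
    intro s hs
    rw [hz, (hR s).1 hs, eval_zero, mul_zero, zero_add, logHeight₁_pow]
  have hgrow : ∀ s ∈ S, κ * B s ≤ logHeight₁ (MvPolynomial.eval (y s) (U o)) → ∀ i,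
      (∀ t, s < t → t ≤ s + i → t ∉ S) → M * κ * ((q : ℝ) ^ i * B s) ≤ logHeight₁ (z (s + i + 1)) := by
    intro s hs hκs i
    induction i with
    | zero =>
      intro _
      rw [add_zero, hzS s hs, pow_zero, one_mul, mul_assoc]
      exact mul_le_mul_of_nonneg_left hκs (by positivity)
    | succ i ih =>
      intro hgap
      have h1 := ih fun t h1 h2 => hgap t h1 (by omega)
      have hn : s + i + 1 ∉ S := hgap _ (by omega) (by omega)
      set n := s + i + 1 with hnd
      have hBs := hB1 s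
      have hBn := hB1 n
      set Y := (q : ℝ) ^ i * B s with hY
      have hY0 : 0 < Y := by positivity
      have h2 : B n ≤ E * Y := by
        have e1 := hEi s (i + 1)
        have e2 : E ^ i ≤ (q : ℝ) ^ i := pow_le_pow_left₀ (by linarith) hqE i
        rw [pow_succ', mul_assoc] at e1
        refine e1.trans (mul_le_mul_of_nonneg_left ?_ (by linarith))
        exact mul_le_mul_of_nonneg_right e2 (by linarith)
      have h3 : C₂ * B n < logHeight₁ (z n) := by
        have e1 := mul_le_mul_of_nonneg_left h2 hC₂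
        have e2 := mul_lt_mul_of_pos_right hM hY0
        linarith
      have h4 : Y ≤ logHeight₁ (z n) := by
        have e2 := mul_lt_mul_of_pos_right hM hY0
        have e3 : 0 ≤ C₂ * E * Y := by positivity
        linarith
      have hne : (R.map (MvPolynomial.eval (y n))).eval (z n) ≠ 0 := fun h =>
        absurd ((hRh n (z n)).2 hn h) (not_le.2 h3)
      have h5 : z n ^ (R.natDegree + q + T) = (z (n + 1) - MvPolynomial.eval (y n) (U o) ^ M) /
          (R.map (MvPolynomial.eval (y n))).eval (z n) := by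
        rw [hz n, add_sub_cancel_right, mul_div_cancel_right₀ _ hne]
      have h6 := congrArg logHeight₁ h5
      rw [logHeight₁_pow] at h6
      have h7 := h_div_le (z (n + 1) - MvPolynomial.eval (y n) (U o) ^ M)
        ((R.map (MvPolynomial.eval (y n))).eval (z n))
      have h8 := logHeight₁_sub_le (z (n + 1)) (MvPolynomial.eval (y n) (U o) ^ M)
      rw [logHeight₁_pow] at h8
      have h9 := (hRh n (z n)).1
      have h10 : (M : ℝ) * logHeight₁ (MvPolynomial.eval (y n) (U o)) ≤ M * (C₃ * B n) :=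
        mul_le_mul_of_nonneg_left (hUh (y n) _ (hb0 n) (hyb n)) (by positivity)
      have h11 : (C₂ + M * C₃ + w) * B n ≤ T * logHeight₁ (z n) := by
        have e0 : 0 ≤ C₂ + M * C₃ + w := by positivity
        have e1 := mul_le_mul_of_nonneg_left h2 e0
        have e2 : (T : ℝ) * Y ≤ T * logHeight₁ (z n) := mul_le_mul_of_nonneg_left h4 (by positivity)
        have e3 := mul_lt_mul_of_pos_right hT hY0
        linarith
      have h12 : w ≤ w * B n := le_mul_of_one_le_right hw0 hBn
      have h13 : (q : ℝ) * logHeight₁ (z n) ≤ logHeight₁ (z (n + 1)) := by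
        push_cast at h6
        linarith
      have h14 := mul_le_mul_of_nonneg_left h1 hq0.le
      rw [show s + (i + 1) + 1 = n + 1 by omega, pow_succ', mul_assoc (q : ℝ), ← hY]
      linarith
  refine ⟨_, fun n => Fin.cons (z n) (y n), skew_indep g hg P hPd, fun j => by simp,
    fun n j => by simp, fun n j => ?_, ?_⟩
  · refine Fin.cases ?_ (fun j => ?_) j
    · simp only [Fin.cons_zero, MvPolynomial.eval_eq_eval_mv_eval', AlgEquiv.apply_symm_apply]
      rfl
    · simp only [Fin.cons_succ, MvPolynomial.eval_rename, hy]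
      rfl
  rw [tendsto_rpow_iff (fun n => le_max_left _ _)]
  rintro ⟨α, hα⟩
  have hpos : ∀ n, 0 < max 1 (logHeight (Fin.cons 1 (Fin.cons (z n) (y n) : Fin (m + 1) → K) :
      Fin (m + 2) → K)) := fun n => lt_of_lt_of_le one_pos (le_max_left _ _)
  have hup : α ≤ log E := by
    refine rate_le_of_frequently (c := (M * C₃ + 1) * B 0) hpos hα ?_
    have h1 : ∃ᶠ s : ℕ in atTop, s ∈ S := Nat.frequently_atTop_iff_infinite.2 hinf
    refine (tendsto_add_atTop_nat 1).frequently (h1.mono fun s hs => ?_)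
    have e1 := tuple_le_sum (Fin.cons 1 (Fin.cons (z (s + 1)) (y (s + 1)) : Fin (m + 1) → K) :
      Fin (m + 2) → K)
    rw [Fin.sum_univ_succ, Fin.sum_univ_succ] at e1
    simp only [Fin.cons_zero, Fin.cons_succ, logHeight₁_one, zero_add, hzS s hs] at e1
    have e2 : (M : ℝ) * logHeight₁ (MvPolynomial.eval (y s) (U o)) ≤ M * (C₃ * B s) :=
      mul_le_mul_of_nonneg_left (hUh (y s) _ (hb0 s) (hyb s)) (by positivity)
    have e3 := hEi 0 (s + 1)
    have e4 := hEi 0 s
    rw [zero_add] at e3 e4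
    have e5 : E ^ s ≤ E ^ (s + 1) := pow_le_pow_right₀ (by linarith) (by omega)
    have e6 : exp (log E * (s + 1 : ℕ)) = E ^ (s + 1) := by
      rw [mul_comm, exp_nat_mul, exp_log (by linarith)]
    have e7 : B s ≤ E ^ (s + 1) * B 0 :=
      e4.trans (mul_le_mul_of_nonneg_right e5 (by linarith [hB1 0]))
    have e8 : (M : ℝ) * (C₃ * B s) ≤ M * (C₃ * (E ^ (s + 1) * B 0)) := by gcongr
    have e9 : B (s + 1) = ∑ j, logHeight₁ (y (s + 1) j) + 1 := rfl
    have e10 := hB1 (s + 1)
    have e11 : 0 ≤ (M : ℝ) * (C₃ * (E ^ (s + 1) * B 0)) := by have := hB1 0; positivity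
    rw [e6]
    apply max_le <;> linarith
  have hlow : ε * log q ≤ α := by
    refine le_rate_of_frequently (c := exp (-log q)) (exp_pos _) hα (hgap.mono ?_)
    rintro n ⟨s, hs, h1, h2, h3⟩
    have h4 : s < n := by
      have : (s : ℝ) < n := lt_of_lt_of_le h1 (by nlinarith [Nat.cast_nonneg (α := ℝ) n])
      exact_mod_cast this
    obtain ⟨i, rfl⟩ := Nat.exists_eq_add_of_lt h4
    have h5 := hgrow s hs h3 i fun t a b => h2 t a (by omega)
    have h6 : logHeight₁ (z (s + i + 1)) ≤ logHeight (Fin.cons 1 (Fin.cons (z (s + i + 1))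
        (y (s + i + 1)) : Fin (m + 1) → K) : Fin (m + 2) → K) := by
      rw [logHeight₁_eq_logHeight]
      refine le_trans (le_of_eq ?_) (logHeight_comp_le ![1, 0] _)
      congr 1
      funext a
      fin_cases a <;> simp
    refine le_trans ?_ (le_max_of_le_right (h5.trans h6))
    have h7 : (q : ℝ) ^ i = exp (i * log q) := by rw [exp_nat_mul, exp_log hq0]
    have hlq : 0 ≤ log (q : ℝ) := log_natCast_nonneg q
    have h8 : exp (-log q) * exp (ε * log q * (s + i + 1 : ℕ)) ≤ (q : ℝ) ^ i := by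
      rw [h7, ← exp_add]
      apply exp_le_exp.2
      push_cast at h1 ⊢
      nlinarith
    have h9 : (q : ℝ) ^ i ≤ (q : ℝ) ^ i * B s := le_mul_of_one_le_right (by positivity) (hB1 s)
    have h10 : (q : ℝ) ^ i * B s ≤ M * κ * ((q : ℝ) ^ i * B s) :=
      le_mul_of_one_le_left (by have := hB1 s; positivity) (by linarith)
    linarith
  linarith

end Pool.Agent.MP_195eb9_ag
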