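import Pool.Agent.MP_195eb9_ag.Tower

/-! Over a base of dimension at most one the hypotheses of the tower theorem are automatic. -/

namespace Pool.Agent.MP_195eb9_ag

open Filter Topology Finset Height Polynomial

variable {K : Type*} [Field K] {r N : ℕ}

lemma nonLacunary_of_ap {S : Set ℕ} {a p : ℕ} (hp : 0 < p) (h : ∀ t, a + p * t ∈ S) :
    NonLacunary S := by
  intro ε hε
  obtain ⟨M, hM⟩ := exists_nat_gt (p / ε)
  filter_upwards [eventually_ge_atTop a, eventually_ge_atTop M] with n h1 h2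
  refine ⟨a + p * ((n - a) / p), h _, ?_, ?_⟩
  · have e1 := Nat.div_add_mod (n - a) p
    have e2 := Nat.mod_lt (n - a) hp
    have e3 : n ≤ a + p * ((n - a) / p) + p := by omega
    have e4 : (n : ℝ) ≤ (a + p * ((n - a) / p) : ℕ) + p := by exact_mod_cast e3
    have e5 : (M : ℝ) ≤ n := by exact_mod_cast h2
    rw [div_lt_iff₀ hε] at hM
    nlinarith
  · have := Nat.mul_div_le (n - a) p
    omega

lemma eval_scale' {σ τ : Type*} [Fintype τ] [DecidableEq τ] (f : σ → τ) (p : MvPolynomial σ K)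
    (e : τ → ℕ) (hp : p.IsWeightedHomogeneous (fun v => (Pi.single (f v) 1 : τ → ℕ)) e)
    (c : τ → K) (w w' : σ → K) (h : ∀ v, e (f v) ≠ 0 → w' v = c (f v) * w v) :
    MvPolynomial.eval w' p = (∏ j, c j ^ e j) * MvPolynomial.eval w p := by
  have h1 := eval_scale f p e hp (fun j => if e j = 0 then 0 else 1) w'
  have h2 := eval_scale f p e hp (fun j => if e j = 0 then 0 else c j) w
  have h3 : ∏ j, (if e j = 0 then (0 : K) else 1) ^ e j = 1 :=
    prod_eq_one fun j _ => by split_ifs with hj <;> simp [hj]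
  have h4 : ∏ j, (if e j = 0 then (0 : K) else c j) ^ e j = ∏ j, c j ^ e j :=
    prod_congr rfl fun j _ => by split_ifs with hj <;> simp [hj]
  rw [h3, one_mul] at h1
  rw [h4] at h2
  rw [← h1, ← h2]
  congr 2
  funext v
  split_ifs with hv
  · simp
  · rw [h v hv, one_mul]

/-- the two points have the same image in the product of the factors below `i` -/
def Eqv (i : ℕ) (w w' : Fin (r + 1) ⊕ Fin N × Fin 2 → K) : Prop :=
  ∃ c : Option (Fin N) → K, (∀ j, c j ≠ 0) ∧
    ∀ v, (∀ j : Fin N, factor v = some j → (j : ℕ) < i) → w' v = c (factor v) * w v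

lemma Eqv.symm {i : ℕ} {w w' : Fin (r + 1) ⊕ Fin N × Fin 2 → K} (h : Eqv i w w') : Eqv i w' w := by
  obtain ⟨c, hc, h⟩ := h
  refine ⟨fun j => (c j)⁻¹, fun j => inv_ne_zero (hc j), fun v hv => ?_⟩
  rw [h v hv, inv_mul_cancel_left₀ (hc _)]

lemma Eqv.trans {i : ℕ} {w w' w'' : Fin (r + 1) ⊕ Fin N × Fin 2 → K} (h : Eqv i w w')
    (h' : Eqv i w' w'') : Eqv i w w'' := by
  obtain ⟨c, hc, h⟩ := h
  obtain ⟨c', hc', h'⟩ := h'
  refine ⟨fun j => c' j * c j, fun j => mul_ne_zero (hc' j) (hc j), fun v hv => ?_⟩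
  rw [h' v hv, h v hv, mul_assoc]

/-- the fibre map is constant -/
def Col (i : Fin N) (F : Fin 2 → MvPolynomial (Fin (r + 1) ⊕ Fin N × Fin 2) K)
    (w : Fin (r + 1) ⊕ Fin N × Fin 2 → K) : Prop :=
  ∃ c : Fin 2 → K, c ≠ 0 ∧ ∀ t : Fin 2 → K,
    ∑ a, c a * MvPolynomial.eval (upd i w (t 0) (t 1)) (F a) = 0

lemma Eqv.col {i : Fin N} {F : Fin 2 → MvPolynomial (Fin (r + 1) ⊕ Fin N × Fin 2) K}
    {e : Option (Fin N) → ℕ}
    (hF : ∀ a, (F a).IsWeightedHomogeneous
      (fun v => (Pi.single (factor v) 1 : Option (Fin N) → ℕ)) e)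
    (he : ∀ j, i < j → e (some j) = 0)
    {w w' : Fin (r + 1) ⊕ Fin N × Fin 2 → K} (h : Eqv i w w') (hc : Col i F w) : Col i F w' := by
  obtain ⟨c, -, h⟩ := h
  obtain ⟨b, hb, hc⟩ := hc
  refine ⟨b, hb, fun t => ?_⟩
  have key : ∀ a, MvPolynomial.eval (upd i w' (t 0) (t 1)) (F a) =
      (∏ j, (if j = some i then 1 else c j) ^ e j) *
        MvPolynomial.eval (upd i w (t 0) (t 1)) (F a) := by
    intro a
    apply eval_scale' factor (F a) e (hF a) (fun j => if j = some i then 1 else c j)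
    intro v hv
    by_cases h1 : factor v = some i
    · simp [upd, h1]
    · simp only [upd, h1, if_false]
      apply h
      intro j hj
      by_contra hlt
      rw [hj] at h1 hv
      refine hv (he j (lt_of_le_of_ne (by simpa using hlt) fun h2 => h1 (by rw [h2])))
  simp only [key, mul_left_comm (b _), ← mul_sum, hc t, mul_zero]

lemma col_iff [Infinite K] {i : Fin N} {F : Fin 2 → MvPolynomial (Fin (r + 1) ⊕ Fin N × Fin 2) K}
    {e : Option (Fin N) → ℕ}
    (hF : ∀ a, (F a).IsWeightedHomogeneous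
      (fun v => (Pi.single (factor v) 1 : Option (Fin N) → ℕ)) e)
    (w : Fin (r + 1) ⊕ Fin N × Fin 2 → K) :
    rdeg ((fib i (F 0)).map (MvPolynomial.eval w)) ((fib i (F 1)).map (MvPolynomial.eval w)) = 0 ↔
      Col i F w := by
  have hw : w = coords (fun a => w (Sum.inl a)) (fun j a => w (Sum.inr (j, a))) := by
    funext v
    rcases v with a | ⟨j, a⟩ <;> rfl
  rw [hw, rdeg_eq_zero_iff i F e hF]
  simp only [coords_update, Col]

lemma curve_case [Infinite K] {i : Fin N}
    {F : Fin 2 → MvPolynomial (Fin (r + 1) ⊕ Fin N × Fin 2) K} {e : Option (Fin N) → ℕ}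
    (hF : ∀ a, (F a).IsWeightedHomogeneous
      (fun v => (Pi.single (factor v) 1 : Option (Fin N) → ℕ)) e)
    (he : ∀ j, i < j → e (some j) = 0) (w : ℕ → Fin (r + 1) ⊕ Fin N × Fin 2 → K)
    (τ : ℕ → Fin 2 → K) (hτ : ∀ n, τ n ≠ 0) (ω : (Fin 2 → K) → Fin (r + 1) ⊕ Fin N × Fin 2 → K)
    (hω : ∀ v, ∃ α₀ α₁ β : K, ∀ t, ω t v = α₀ * t 0 + α₁ * t 1 + β)
    (h1 : ∀ n (c : K), c ≠ 0 → Eqv i (w n) (ω (c • τ n)))
    (hinf : {n | Col i F (w n)}.Infinite) (n₀ : ℕ) (hn₀ : ¬ Col i F (w n₀)) :
    ∃ n m, n < m ∧ Col i F (w n) ∧ Eqv i (w n) (w m) := by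
  classical
  have h2 : ¬ Col i F (ω (τ n₀)) := fun h =>
    hn₀ ((by simpa using (h1 n₀ 1 one_ne_zero).symm : Eqv i (ω (τ n₀)) (w n₀)).col hF he h)
  obtain ⟨Δ, hΔ, hΔ'⟩ := rdeg_open (fib i (F 0)) (fib i (F 1)) (ω (τ n₀)) 1
    (by rw [← col_iff hF] at h2; omega)
  obtain ⟨k, hk⟩ := Function.ne_iff.1 (hτ n₀)
  simp only [Pi.zero_apply] at hk
  let k' : Fin 2 := if k = 0 then 1 else 0
  have hkk : ∀ a : Fin 2, a = k ∨ a = k' := by
    intro a
    fin_cases a <;> fin_cases k <;> simp [k']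
  have hkk' : k' ≠ k := by fin_cases k <;> simp [k']
  let t : K → Fin 2 → K := fun s a => if a = k then τ n₀ k else s
  choose α₀ α₁ β hω using hω
  let P : Fin 2 → K[X] := fun a => if a = k then C (τ n₀ k) else X
  have hP : ∀ a s, (P a).eval s = t s a := by
    intro a s
    simp only [P, t]
    split_ifs <;> simp
  let δ : K[X] := MvPolynomial.aeval (fun v => C (α₀ v) * P 0 + C (α₁ v) * P 1 + C (β v)) Δ
  have hδ : ∀ s, δ.eval s = MvPolynomial.eval (ω (t s)) Δ := by
    intro s
    simp only [δ]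
    generalize Δ = p
    induction p using MvPolynomial.induction_on with
    | C a => simp
    | add p q hp hq => simp only [map_add, eval_add, hp, hq]
    | mul_X p v hp =>
      simp only [map_mul, eval_mul, hp, MvPolynomial.aeval_X, MvPolynomial.eval_X, eval_add,
        eval_C, hP, hω]
  have hδ0 : δ ≠ 0 := by
    intro h
    apply hΔ
    have : t (τ n₀ k') = τ n₀ := by
      funext a
      rcases hkk a with rfl | rfl
      · simp [t]
      · simp [t, hkk']
    rw [← this, ← hδ, h, eval_zero]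
  have ht : ∀ n, τ n k ≠ 0 → t (τ n k' * τ n₀ k / τ n k) = (τ n₀ k / τ n k) • τ n := by
    intro n hn
    funext a
    rcases hkk a with rfl | rfl
    · simp [t, hn]
    · simp only [t, hkk', if_false, Pi.smul_apply, smul_eq_mul]
      ring
  let val : ℕ → Option K := fun n => if τ n k = 0 then none else some (τ n k' * τ n₀ k / τ n k)
  have hmaps : Set.MapsTo val {n | Col i F (w n)} (insert none (some '' {s | δ.IsRoot s})) := by
    intro n hn
    simp only [val]
    split_ifs with h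
    · exact Set.mem_insert _ _
    · refine Set.mem_insert_of_mem _ ⟨_, ?_, rfl⟩
      by_contra hne
      simp only [Set.mem_ofPred_eq, IsRoot.def, hδ] at hne
      have e1 := hΔ' _ hne
      have e2 := (h1 n _ (div_ne_zero hk h)).col hF he hn
      rw [← ht n h, ← col_iff hF] at e2
      omega
  obtain ⟨n, hn, m, -, hnm, hval⟩ := hinf.exists_lt_map_eq_of_mapsTo hmaps
    (((finite_setOfPred_isRoot hδ0).image _).insert _)
  refine ⟨n, m, hnm, hn, ?_⟩
  simp only [val] at hval
  split_ifs at hval with e1 e2 e2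
  · have hn' : τ n k' ≠ 0 := by
      intro h
      apply hτ n
      funext a
      rcases hkk a with rfl | rfl
      exacts [e1, h]
    have hm' : τ m k' ≠ 0 := by
      intro h
      apply hτ m
      funext a
      rcases hkk a with rfl | rfl
      exacts [e2, h]
    have e3 : (τ m k' / τ n k') • τ n = (1 : K) • τ m := by
      funext a
      rcases hkk a with rfl | rfl
      · simp [e1, e2]
      · simp [hn']
    exact (e3 ▸ h1 n _ (div_ne_zero hm' hn')).trans (h1 m 1 one_ne_zero).symm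
  · have e3 := ht n e1
    rw [Option.some.inj hval, ht m e2] at e3
    exact (e3 ▸ h1 n _ (div_ne_zero hk e1)).trans (h1 m _ (div_ne_zero hk e2)).symm

lemma eval_homog_smul {σ : Type*} (p : MvPolynomial σ K) {d : ℕ} (hp : p.IsHomogeneous d) (c : K)
    (w : σ → K) : MvPolynomial.eval (fun v => c * w v) p = c ^ d * MvPolynomial.eval w p := by
  have h := eval_scale (fun _ : σ => ()) p (fun _ => d) (by
    intro m hm
    have h1 := hp hm
    funext u
    rw [← h1, Finsupp.weight_apply, Finsupp.weight_apply, Finsupp.sum, Finsupp.sum,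
      Finset.sum_apply]
    simp) (fun _ => c) w
  simpa using h

lemma col_lowdim [Infinite K] (G : Fin (r + 1) → MvPolynomial (Fin (r + 1)) K) (d : ℕ)
    (hG : ∀ a, (G a).IsHomogeneous d)
    (F : Fin N → Fin 2 → MvPolynomial (Fin (r + 1) ⊕ Fin N × Fin 2) K)
    (e : Fin N → Option (Fin N) → ℕ)
    (hF : ∀ i a, (F i a).IsWeightedHomogeneous
      (fun v => (Pi.single (factor v) 1 : Option (Fin N) → ℕ)) (e i))
    (he : ∀ i j, i < j → e i (some j) = 0)
    (y : ℕ → Fin (r + 1) → K) (x : ℕ → Fin N → Fin 2 → K)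
    (hy0 : ∀ n, y n ≠ 0) (hx0 : ∀ n i, x n i ≠ 0)
    (hy : ∀ n a, y (n + 1) a = MvPolynomial.eval (y n) (G a))
    (hx : ∀ n i a, x (n + 1) i a = MvPolynomial.eval (coords (y n) (x n)) (F i a))
    (i : Fin N) (hi : r + i ≤ 1) :
    {n | Col i (F i) (coords (y n) (x n))}.Finite ∨
      NonLacunary {n | Col i (F i) (coords (y n) (x n))} := by
  classical
  have hstep : ∀ n m, Eqv i (coords (y n) (x n)) (coords (y m) (x m)) →
      Eqv i (coords (y (n + 1)) (x (n + 1))) (coords (y (m + 1)) (x (m + 1))) := by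
    rintro n m ⟨c, hc, h⟩
    refine ⟨fun o => o.elim (c none ^ d) fun j => ∏ l, c l ^ e j l, ?_, ?_⟩
    · rintro (_ | j)
      · exact pow_ne_zero _ (hc _)
      · exact prod_ne_zero_iff.2 fun l _ => pow_ne_zero _ (hc _)
    · rintro (a | ⟨j, a⟩) hv
      · simp only [coords, Sum.elim_inl, factor, Option.elim_none, hy]
        rw [← eval_homog_smul _ (hG a)]
        congr 2
        funext b
        exact h (Sum.inl b) (by simp [factor])
      · have hj : (j : ℕ) < i := hv j rfl
        change x (m + 1) j a = (∏ l, c l ^ e j l) * x (n + 1) j a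
        rw [hx, hx]
        apply eval_scale' factor _ _ (hF j a)
        intro v hv'
        apply h
        intro l hl
        by_contra hlt
        rw [hl] at hv'
        exact hv' (he j l (by rw [Fin.lt_def]; omega))
  have hfin : (∃ n m, n < m ∧ Col i (F i) (coords (y n) (x n)) ∧
      Eqv i (coords (y n) (x n)) (coords (y m) (x m))) →
      NonLacunary {n | Col i (F i) (coords (y n) (x n))} := by
    rintro ⟨n, m, hnm, hc, hE⟩
    obtain ⟨p, rfl⟩ := Nat.exists_eq_add_of_lt hnm
    have h1 : ∀ s, Eqv i (coords (y (n + s)) (x (n + s)))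
        (coords (y (n + p + 1 + s)) (x (n + p + 1 + s))) := by
      intro s
      induction s with
      | zero => exact hE
      | succ s ih => exact hstep _ _ ih
    refine nonLacunary_of_ap (a := n) (p := p + 1) (by omega) fun t => ?_
    induction t with
    | zero => exact hc
    | succ t ih =>
      have := (h1 ((p + 1) * t)).col (hF i) (he i) ih
      rwa [show n + p + 1 + (p + 1) * t = n + (p + 1) * (t + 1) by ring] at this
  by_cases hinf : {n | Col i (F i) (coords (y n) (x n))}.Infinite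
  swap
  · exact Or.inl (Set.not_infinite.1 hinf)
  right
  by_cases hall : ∀ n, Col i (F i) (coords (y n) (x n))
  · exact nonLacunary_of_ap (a := 0) one_pos fun t => hall _
  push Not at hall
  obtain ⟨n₀, hn₀⟩ := hall
  apply hfin
  rcases r with _ | r
  · have hy1 : ∀ n, y n 0 ≠ 0 := by
      intro n h
      apply hy0 n
      funext a
      rw [Subsingleton.elim (α := Fin 1) a 0]
      exact h
    let i₀ : Fin N := ⟨0, i.pos⟩
    refine curve_case (hF i) (he i) (fun n => coords (y n) (x n)) (fun n => x n i₀)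
      (fun n => hx0 n i₀) (fun t => coords (fun _ => 1) (fun _ => t)) ?_ ?_ hinf n₀ hn₀
    · rintro (a | ⟨j, a⟩)
      · exact ⟨0, 0, 1, fun t => by simp [coords]⟩
      · fin_cases a
        · exact ⟨1, 0, 0, fun t => by simp [coords]⟩
        · exact ⟨0, 1, 0, fun t => by simp [coords]⟩
    · intro n c hc
      refine ⟨fun o => o.elim (y n 0)⁻¹ fun _ => c, ?_, ?_⟩
      · rintro (_ | j)
        · exact inv_ne_zero (hy1 n)
        · exact hc
      · rintro (a | ⟨j, a⟩) hv
        · rw [Subsingleton.elim (α := Fin 1) a 0]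
          simp [coords, factor, hy1 n]
        · have hj : (j : ℕ) < i := hv j rfl
          have : j = i₀ := Fin.ext (by simp only [i₀]; omega)
          simp [coords, factor, this]
  · obtain rfl : r = 0 := by omega
    refine curve_case (hF i) (he i) (fun n => coords (y n) (x n)) y hy0
      (fun t => coords t (fun _ => 0)) ?_ ?_ hinf n₀ hn₀
    · rintro (a | ⟨j, a⟩)
      · fin_cases a
        · exact ⟨1, 0, 0, fun t => by simp [coords]⟩
        · exact ⟨0, 1, 0, fun t => by simp [coords]⟩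
      · exact ⟨0, 0, 0, fun t => by simp [coords]⟩
    · intro n c hc
      refine ⟨fun _ => c, fun _ => hc, ?_⟩
      rintro (a | ⟨j, a⟩) hv
      · simp [coords]
      · have hj : (j : ℕ) < i := hv j rfl
        omega

variable [AdmissibleAbsValues K]

lemma base_lowdim [Infinite K] (G : Fin (r + 1) → MvPolynomial (Fin (r + 1)) K) (d : ℕ)
    (hG : ∀ a, (G a).IsHomogeneous d) (y : ℕ → Fin (r + 1) → K) (hy0 : ∀ n, y n ≠ 0)
    (hy : ∀ n a, y (n + 1) a = MvPolynomial.eval (y n) (G a)) (hr : r ≤ 1) :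
    ∃ β : ℝ, Tendsto (fun n : ℕ => (max 1 (logHeight (y n))) ^ (1 / (n : ℝ))) atTop (𝓝 β) := by
  have h0 : ∀ y : ℕ → Fin 1 → K, ∃ β : ℝ,
      Tendsto (fun n : ℕ => (max 1 (logHeight (y n))) ^ (1 / (n : ℝ))) atTop (𝓝 β) := fun y =>
    ⟨1, by simp⟩
  rcases r with _ | r
  · exact h0 y
  obtain rfl : r = 0 := by omega
  let F : Fin 1 → Fin 2 → MvPolynomial (Fin (0 + 1) ⊕ Fin 1 × Fin 2) K := fun _ a =>
    MvPolynomial.rename (fun b => Sum.inr (0, b)) (G a)
  let e : Fin 1 → Option (Fin 1) → ℕ := fun _ o => o.elim 0 fun _ => d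
  have hF : ∀ i a, (F i a).IsWeightedHomogeneous
      (fun v => (Pi.single (factor v) 1 : Option (Fin 1) → ℕ)) (e i) := by
    intro i a m hm
    obtain ⟨u, rfl, hu⟩ := MvPolynomial.coeff_rename_ne_zero _ _ _ hm
    have h1 := hG a hu
    rw [Finsupp.weight_apply, Finsupp.sum_mapDomain_index (by simp) (by intros; rw [add_smul])]
    rw [Finsupp.weight_apply] at h1
    funext o
    rw [Finsupp.sum, Finset.sum_apply]
    rw [Finsupp.sum] at h1
    rcases o with _ | j
    · simp [e, factor]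
    · rw [Subsingleton.elim j 0]
      simpa [e, factor] using h1
  have he : ∀ i j : Fin 1, i < j → e i (some j) = 0 := fun i j h =>
    absurd h (by rw [Subsingleton.elim i j]; exact lt_irrefl _)
  have hx : ∀ n (i : Fin 1) a, (fun n (_ : Fin 1) => y n) (n + 1) i a =
      MvPolynomial.eval (coords (fun _ => 1) ((fun n (_ : Fin 1) => y n) n)) (F i a) := by
    intro n i a
    simp only [F, MvPolynomial.eval_rename, hy]
    rfl
  have h1 : ∀ n : ℕ, (fun _ : Fin (0 + 1) => (1 : K)) ≠ 0 := fun _ h => by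
    simpa using congrFun h 0
  have := tower (fun _ => 1) F e hF he (fun _ _ => 1) (fun n _ => y n) h1 (fun n _ => hy0 n)
    (fun n a => by simp) hx (h0 _)
    (fun i => {n | Col i (F i) (coords (fun _ => 1) fun _ => y n)})
    (fun i n => by simp only [coords_update, Col, Set.mem_ofPred_eq])
    (fun i => col_lowdim (fun _ => 1) 0 (fun _ => MvPolynomial.isHomogeneous_one _ _) F e hF he
      (fun _ _ => 1) (fun n _ => y n) h1 (fun n _ => hy0 n) (fun n a => by simp) hx i
      (by have := i.2; omega))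
  simpa using this

theorem tower' [Infinite K] (G : Fin (r + 1) → MvPolynomial (Fin (r + 1)) K) (d : ℕ)
    (hG : ∀ a, (G a).IsHomogeneous d)
    (F : Fin N → Fin 2 → MvPolynomial (Fin (r + 1) ⊕ Fin N × Fin 2) K)
    (e : Fin N → Option (Fin N) → ℕ)
    (hF : ∀ i a, (F i a).IsWeightedHomogeneous
      (fun v => (Pi.single (factor v) 1 : Option (Fin N) → ℕ)) (e i))
    (he : ∀ i j, i < j → e i (some j) = 0)
    (y : ℕ → Fin (r + 1) → K) (x : ℕ → Fin N → Fin 2 → K)
    (hy0 : ∀ n, y n ≠ 0) (hx0 : ∀ n i, x n i ≠ 0)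
    (hy : ∀ n a, y (n + 1) a = MvPolynomial.eval (y n) (G a))
    (hx : ∀ n i a, x (n + 1) i a = MvPolynomial.eval (coords (y n) (x n)) (F i a))
    (hbase : 2 ≤ r → ∃ β : ℝ, Tendsto (fun n : ℕ => (max 1 (logHeight (y n))) ^ (1 / (n : ℝ)))
      atTop (𝓝 β))
    (S : Fin N → Set ℕ)
    (hS : ∀ i n, n ∈ S i ↔ ∃ c : Fin 2 → K, c ≠ 0 ∧ ∀ t : Fin 2 → K,
      ∑ a, c a * MvPolynomial.eval (coords (y n) (Function.update (x n) i t)) (F i a) = 0)
    (hcol : ∀ i : Fin N, 2 ≤ r + i → (S i).Finite ∨ NonLacunary (S i)) :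
    ∃ α : ℝ, Tendsto (fun n : ℕ => (max 1 (logHeight (y n) + ∑ i, logHeight (x n i))) ^
      (1 / (n : ℝ))) atTop (𝓝 α) := by
  refine tower G F e hF he y x hy0 hx0 hy hx ?_ S hS fun i => ?_
  · by_cases h : 2 ≤ r
    · exact hbase h
    · exact base_lowdim G d hG y hy0 hy (by omega)
  · by_cases h : 2 ≤ r + i
    · exact hcol i h
    · have : S i = {n | Col i (F i) (coords (y n) (x n))} := by
        ext n
        simp only [hS, coords_update, Col, Set.mem_ofPred_eq]
      rw [this]
      exact col_lowdim G d hG F e hF he y x hy0 hx0 hy hx i (by omega)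

end Pool.Agent.MP_195eb9_ag
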