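import Mathlib

/-! Uniform height estimates for rational functions in one variable. -/

namespace Pool.Agent.MP_195eb9_ag

open Height Finset Polynomial

variable {K : Type*} [Field K] [AdmissibleAbsValues K]

lemma h_nonneg (x : K) : 0 ≤ logHeight₁ x := zero_le_logHeight₁ x

lemma h_div_le (x y : K) : logHeight₁ (x / y) ≤ logHeight₁ x + logHeight₁ y := by
  rw [div_eq_mul_inv]
  simpa [logHeight₁_inv] using logHeight₁_mul_le x y⁻¹

lemma tuple_le_sum {ι : Type*} [Fintype ι] (x : ι → K) :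
    logHeight x ≤ ∑ i, logHeight₁ (x i) := by
  classical
  have h1 := logHeight_fun_prod_eq (K := K) (α := ι) (ι := fun _ => Fin 2)
    (x := fun a => ![x a, 1]) (fun a => by simp)
  have h2 := logHeight_comp_le (K := K) (fun (i : ι) (a : ι) => if a = i then (0 : Fin 2) else 1)
    (fun I : ι → Fin 2 => ∏ a, ![x a, 1] (I a))
  rw [h1] at h2
  simp only [← logHeight₁_eq_logHeight] at h2
  refine le_trans (le_of_eq ?_) h2
  congr 1
  funext i
  simp only [Function.comp]
  rw [Finset.prod_eq_single i]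
  · simp
  · intro b _ hb
    simp [hb]
  · simp

lemma tuple_le_card {ι : Type*} [Fintype ι] (x : ι → K) (H : ℝ) (h : ∀ i, logHeight₁ (x i) ≤ H) :
    logHeight x ≤ Fintype.card ι * H := by
  refine (tuple_le_sum x).trans ?_
  calc ∑ i, logHeight₁ (x i) ≤ ∑ _i : ι, H := sum_le_sum fun i _ => h i
    _ = Fintype.card ι * H := by simp

lemma veronese_le (d : ℕ) (z : K) :
    logHeight (fun j : Fin (d + 1) => z ^ (j : ℕ)) ≤ d * logHeight₁ z := by
  classical
  have h1 := logHeight_fun_prod_eq (K := K) (α := Fin d) (ι := fun _ => Fin 2)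
    (x := fun _ => ![z, 1]) (fun a => by simp)
  have h2 := logHeight_comp_le (K := K)
    (fun (j : Fin (d + 1)) (a : Fin d) => if (a : ℕ) < j then (0 : Fin 2) else 1)
    (fun I : Fin d → Fin 2 => ∏ a, ![z, 1] (I a))
  rw [h1] at h2
  simp only [← logHeight₁_eq_logHeight, sum_const, card_univ, Fintype.card_fin, nsmul_eq_mul] at h2
  refine le_trans (le_of_eq ?_) h2
  congr 1
  funext j
  simp only [Function.comp]
  have : ∀ a : Fin d, ![z, 1] (if (a : ℕ) < j then (0 : Fin 2) else 1)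
      = if (a : ℕ) < j then z else 1 := by
    intro a
    split_ifs <;> simp
  simp only [this]
  rw [Finset.prod_ite, prod_const_one, mul_one, prod_const, Fin.card_filter_val_lt]
  congr 1
  have := j.2
  omega

/-- bounded solutions of linear systems -/
lemma solve_fin (n : ℕ) : ∃ C : ℝ, 0 ≤ C ∧ ∀ {m : Type} (M : m → Fin n → K) (b : m → K) (H : ℝ),
    0 ≤ H → (∀ i j, logHeight₁ (M i j) ≤ H) → (∀ i, logHeight₁ (b i) ≤ H) →
    (∃ x : Fin n → K, ∀ i, ∑ j, M i j * x j = b i) →
    ∃ x : Fin n → K, (∀ i, ∑ j, M i j * x j = b i) ∧ ∀ j, logHeight₁ (x j) ≤ C * (H + 1) := by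
  induction n with
  | zero =>
    refine ⟨0, le_rfl, fun M b H _ _ _ hx => ?_⟩
    obtain ⟨x, hx⟩ := hx
    exact ⟨x, hx, fun j => j.elim0⟩
  | succ n ih =>
    obtain ⟨C, hC, ih⟩ := ih
    set w : ℝ := totalWeight K * Real.log 2 with hw
    have hw0 : 0 ≤ w := mul_nonneg (by positivity) (Real.log_nonneg (by norm_num))
    set u : ℝ := totalWeight K * Real.log n with hu
    have hu0 : 0 ≤ u := mul_nonneg (by positivity) (Real.log_natCast_nonneg n)
    set C' : ℝ := C * (4 + w + 1) with hC'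
    have hC'0 : 0 ≤ C' := by positivity
    refine ⟨C' + (w + u + 2 + n * (1 + C')), by positivity, fun {m} M b H hH hM hb hx => ?_⟩
    obtain ⟨x, hx⟩ := hx
    by_cases h0 : ∀ i, M i 0 = 0
    · obtain ⟨y, hy, hyb⟩ := ih (fun i j => M i j.succ) b H hH (fun i j => hM _ _) hb
        ⟨fun j => x j.succ, fun i => by
          have := hx i
          rwa [Fin.sum_univ_succ, h0, zero_mul, zero_add] at this⟩
      refine ⟨Fin.cons 0 y, fun i => ?_, fun j => ?_⟩
      · rw [Fin.sum_univ_succ]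
        simpa using hy i
      · refine Fin.cases ?_ (fun j => ?_) j
        · simp only [Fin.cons_zero, logHeight₁_zero]
          positivity
        · simp only [Fin.cons_succ]
          refine (hyb j).trans ?_
          have : C ≤ C' + (w + u + 2 + n * (1 + C')) := by
            have : 0 ≤ (w + u + 2 + n * (1 + C')) := by positivity
            have : C ≤ C' := by rw [hC']; nlinarith
            linarith
          nlinarith
    · push Not at h0
      obtain ⟨r, hr⟩ := h0
      have hb1 : ∀ p q s t : K, logHeight₁ p ≤ H → logHeight₁ q ≤ H → logHeight₁ s ≤ H →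
          logHeight₁ t ≤ H → logHeight₁ (p - q / s * t) ≤ 4 * H + w := by
        intro p q s t hp hq hs ht
        have h1 := logHeight₁_sub_le p (q / s * t)
        have h2 := logHeight₁_mul_le (q / s) t
        have h3 := h_div_le q s
        linarith
      obtain ⟨y, hy, hyb⟩ := ih (fun i j => M i j.succ - M i 0 / M r 0 * M r j.succ)
        (fun i => b i - M i 0 / M r 0 * b r) (4 * H + w) (by positivity)
        (fun i j => hb1 _ _ _ _ (hM _ _) (hM _ _) (hM _ _) (hM _ _))
        (fun i => hb1 _ _ _ _ (hb _) (hM _ _) (hM _ _) (hb _))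
        ⟨fun j => x j.succ, fun i => by
          have h1 := hx i
          have h2 := hx r
          rw [Fin.sum_univ_succ] at h1 h2
          simp only [sub_mul, sum_sub_distrib, mul_assoc, ← mul_sum]
          rw [← h1, ← h2]
          field_simp
          ring⟩
      have hyb' : ∀ j, logHeight₁ (y j) ≤ C' * (H + 1) := by
        intro j
        refine (hyb j).trans ?_
        rw [hC', mul_assoc]
        apply mul_le_mul_of_nonneg_left _ hC
        nlinarith
      refine ⟨Fin.cons ((b r - ∑ j, M r j.succ * y j) / M r 0) y, fun i => ?_, fun j => ?_⟩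
      · rw [Fin.sum_univ_succ]
        simp only [Fin.cons_zero, Fin.cons_succ]
        have h1 := hy i
        simp only [sub_mul, sum_sub_distrib, mul_assoc, ← mul_sum] at h1
        field_simp at h1 ⊢
        linear_combination h1
      · refine Fin.cases ?_ (fun j => ?_) j
        · simp only [Fin.cons_zero]
          have h1 := h_div_le (b r - ∑ j, M r j.succ * y j) (M r 0)
          have h2 := logHeight₁_sub_le (b r) (∑ j, M r j.succ * y j)
          have h3 := logHeight₁_sum_le univ (fun j => M r j.succ * y j)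
          have h4 : ∑ j, logHeight₁ (M r j.succ * y j) ≤ ∑ _j : Fin n, (H + C' * (H + 1)) :=
            sum_le_sum fun j _ => (logHeight₁_mul_le _ _).trans (add_le_add (hM _ _) (hyb' j))
          simp only [sum_const, card_univ, Fintype.card_fin, nsmul_eq_mul] at h3 h4
          have h5 := hb r
          have h6 := hM r 0
          have h7 : (n : ℝ) * (H + C' * (H + 1)) ≤ n * (1 + C') * (H + 1) := by
            rw [mul_assoc (n : ℝ)]
            apply mul_le_mul_of_nonneg_left _ (by positivity)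
            nlinarith
          have h8 : 0 ≤ C' * (H + 1) := by positivity
          have h9 : 0 ≤ (w + u) * H := by positivity
          nlinarith
        · simp only [Fin.cons_succ]
          refine (hyb' j).trans ?_
          have : 0 ≤ (w + u + 2 + n * (1 + C')) * (H + 1) := by positivity
          nlinarith

lemma solve_fintype (ι : Type) [Fintype ι] : ∃ C : ℝ, 0 ≤ C ∧
    ∀ {m : Type} (M : m → ι → K) (b : m → K) (H : ℝ),
    0 ≤ H → (∀ i j, logHeight₁ (M i j) ≤ H) → (∀ i, logHeight₁ (b i) ≤ H) →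
    (∃ x : ι → K, ∀ i, ∑ j, M i j * x j = b i) →
    ∃ x : ι → K, (∀ i, ∑ j, M i j * x j = b i) ∧ ∀ j, logHeight₁ (x j) ≤ C * (H + 1) := by
  obtain ⟨C, hC, h⟩ := solve_fin (K := K) (Fintype.card ι)
  let e := Fintype.equivFin ι
  refine ⟨C, hC, fun M b H hH hM hb hx => ?_⟩
  obtain ⟨x, hx⟩ := hx
  obtain ⟨y, hy, hyb⟩ := h (fun i j => M i (e.symm j)) b H hH (fun i j => hM _ _) hb
    ⟨fun j => x (e.symm j), fun i => by
      rw [← hx i]
      exact Equiv.sum_comp e.symm (fun j => M i j * x j)⟩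
  refine ⟨fun j => y (e j), fun i => ?_, fun j => hyb _⟩
  rw [← hy i, ← Equiv.sum_comp e.symm]
  simp

/-- all coefficients have height at most `H` -/
def PB (A : K[X]) (H : ℝ) : Prop := ∀ k, logHeight₁ (A.coeff k) ≤ H

omit [AdmissibleAbsValues K] in
lemma as_sum_fin (U : K[X]) {d : ℕ} (hU : U.natDegree ≤ d) :
    U = ∑ j : Fin (d + 1), C (U.coeff j) * X ^ (j : ℕ) := by
  rw [Fin.sum_univ_eq_sum_range (fun j => C (U.coeff j) * X ^ j) (d + 1)]
  exact U.as_sum_range_C_mul_X_pow' (by omega)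

omit [AdmissibleAbsValues K] in
lemma coeff_sum_fin {d : ℕ} (u : Fin (d + 1) → K) (k : ℕ) :
    (∑ j : Fin (d + 1), C (u j) * X ^ (j : ℕ)).coeff k = if h : k < d + 1 then u ⟨k, h⟩ else 0 := by
  simp only [finsetSum_coeff, coeff_C_mul, coeff_X_pow]
  split_ifs with h
  · rw [Finset.sum_eq_single ⟨k, h⟩]
    · simp
    · intro b _ hb
      have : k ≠ (b : ℕ) := fun h' => hb (Fin.ext h'.symm)
      simp [this]
    · simp
  · apply Finset.sum_eq_zero
    intro j _
    have : k ≠ (j : ℕ) := fun h' => h (h' ▸ j.2)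
    simp [this]

omit [AdmissibleAbsValues K] in
lemma natDegree_sum_fin {d : ℕ} (u : Fin (d + 1) → K) :
    (∑ j : Fin (d + 1), C (u j) * X ^ (j : ℕ)).natDegree ≤ d := by
  rw [natDegree_le_iff_coeff_eq_zero]
  intro k hk
  rw [coeff_sum_fin, dif_neg (by omega)]

omit [AdmissibleAbsValues K] in
lemma coeff_mul_sum_fin {d : ℕ} (A : K[X]) (u : Fin (d + 1) → K) (k : ℕ) :
    (A * ∑ j : Fin (d + 1), C (u j) * X ^ (j : ℕ)).coeff k
      = ∑ j : Fin (d + 1), (A * X ^ (j : ℕ)).coeff k * u j := by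
  rw [mul_sum, finsetSum_coeff]
  refine sum_congr rfl fun j _ => ?_
  rw [mul_left_comm, coeff_C_mul, mul_comm]

lemma PB.mul_X_pow {A : K[X]} {H : ℝ} (hA : PB A H) (hH : 0 ≤ H) (j : ℕ) : PB (A * X ^ j) H := by
  intro k
  rw [coeff_mul_X_pow']
  split_ifs
  · exact hA _
  · simpa using hH

lemma solve_pair (d : ℕ) : ∃ C : ℝ, 0 ≤ C ∧ ∀ (A B T : K[X]) (j₀ : ℕ) (α β γ : K) (H : ℝ),
    0 ≤ H → PB A H → PB B H → PB T H → logHeight₁ α ≤ H → logHeight₁ β ≤ H → logHeight₁ γ ≤ H →
    (∃ U V : K[X], U.natDegree ≤ d ∧ V.natDegree ≤ d ∧ A * U + B * V = T ∧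
      α * U.coeff j₀ + β * V.coeff j₀ = γ) →
    ∃ U V : K[X], U.natDegree ≤ d ∧ V.natDegree ≤ d ∧ A * U + B * V = T ∧
      α * U.coeff j₀ + β * V.coeff j₀ = γ ∧ PB U (C * (H + 1)) ∧ PB V (C * (H + 1)) := by
  obtain ⟨C₀, hC, h⟩ := solve_fintype (K := K) (Fin (d + 1) ⊕ Fin (d + 1))
  refine ⟨C₀, hC, fun A B T j₀ α β γ H hH hA hB hT hα hβ hγ hex => ?_⟩
  obtain ⟨U, V, hU, hV, hUV, hn⟩ := hex
  let M : Option ℕ → Fin (d + 1) ⊕ Fin (d + 1) → K := fun i j =>
    match i, j with
    | some k, Sum.inl j => (A * X ^ (j : ℕ)).coeff k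
    | some k, Sum.inr j => (B * X ^ (j : ℕ)).coeff k
    | none, Sum.inl j => if (j : ℕ) = j₀ then α else 0
    | none, Sum.inr j => if (j : ℕ) = j₀ then β else 0
  let b : Option ℕ → K := fun i =>
    match i with
    | some k => T.coeff k
    | none => γ
  have key : ∀ x : Fin (d + 1) ⊕ Fin (d + 1) → K, (∀ i, ∑ j, M i j * x j = b i) ↔
      (A * (∑ j : Fin (d + 1), C (x (Sum.inl j)) * X ^ (j : ℕ)) +
        B * (∑ j : Fin (d + 1), C (x (Sum.inr j)) * X ^ (j : ℕ)) = T ∧
      α * (∑ j : Fin (d + 1), C (x (Sum.inl j)) * X ^ (j : ℕ)).coeff j₀ +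
        β * (∑ j : Fin (d + 1), C (x (Sum.inr j)) * X ^ (j : ℕ)).coeff j₀ = γ) := by
    intro x
    have e1 : ∀ k, ∑ j, M (some k) j * x j =
        (A * (∑ j : Fin (d + 1), C (x (Sum.inl j)) * X ^ (j : ℕ)) +
        B * (∑ j : Fin (d + 1), C (x (Sum.inr j)) * X ^ (j : ℕ))).coeff k := by
      intro k
      rw [Fintype.sum_sum_type, coeff_add, coeff_mul_sum_fin, coeff_mul_sum_fin]
    have e3 : ∀ (a : K) (u : Fin (d + 1) → K),
        ∑ j : Fin (d + 1), (if (j : ℕ) = j₀ then a else 0) * u j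
          = a * (∑ j : Fin (d + 1), C (u j) * X ^ (j : ℕ)).coeff j₀ := by
      intro a u
      simp only [finsetSum_coeff, coeff_C_mul, coeff_X_pow, mul_sum]
      refine sum_congr rfl fun j _ => ?_
      by_cases hj : (j : ℕ) = j₀
      · simp [hj]
      · simp [hj, Ne.symm hj]
    have e2 : ∑ j, M none j * x j =
        α * (∑ j : Fin (d + 1), C (x (Sum.inl j)) * X ^ (j : ℕ)).coeff j₀ +
        β * (∑ j : Fin (d + 1), C (x (Sum.inr j)) * X ^ (j : ℕ)).coeff j₀ := by
      rw [Fintype.sum_sum_type, ← e3, ← e3]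
    constructor
    · intro hx
      refine ⟨?_, ?_⟩
      · ext k
        rw [← e1, hx]
      · rw [← e2, hx]
    · rintro ⟨h1, h2⟩ i
      cases i with
      | none => rw [e2, h2]
      | some k => rw [e1, h1]
  obtain ⟨x, hx, hxb⟩ := h M b H hH
    (by
      rintro (_ | k) (j | j)
      · simp only [M]; split_ifs; exacts [hα, by simpa using hH]
      · simp only [M]; split_ifs; exacts [hβ, by simpa using hH]
      · exact hA.mul_X_pow hH _ _
      · exact hB.mul_X_pow hH _ _)
    (by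
      rintro (_ | k)
      · exact hγ
      · exact hT k)
    ⟨Sum.elim (fun j => U.coeff j) (fun j => V.coeff j), (key _).2 (by
      simp only [Sum.elim_inl, Sum.elim_inr]
      rw [← as_sum_fin U hU, ← as_sum_fin V hV]
      exact ⟨hUV, hn⟩)⟩
  obtain ⟨h1, h2⟩ := (key x).1 hx
  have hpb : ∀ u : Fin (d + 1) → K, (∀ j, logHeight₁ (u j) ≤ C₀ * (H + 1)) →
      PB (∑ j : Fin (d + 1), C (u j) * X ^ (j : ℕ)) (C₀ * (H + 1)) := by
    intro u hu k
    rw [coeff_sum_fin]
    split_ifs
    · exact hu _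
    · simp only [logHeight₁_zero]; positivity
  exact ⟨_, _, natDegree_sum_fin _, natDegree_sum_fin _, h1, h2, hpb _ fun j => hxb _,
    hpb _ fun j => hxb _⟩

omit [AdmissibleAbsValues K] in
lemma eval_eq_sum_fin (U : K[X]) {d : ℕ} (hU : U.natDegree ≤ d) (z : K) :
    U.eval z = ∑ j : Fin (d + 1), U.coeff j * z ^ (j : ℕ) := by
  rw [Fin.sum_univ_eq_sum_range (fun j => U.coeff j * z ^ j) (d + 1)]
  exact eval_eq_sum_range' (by omega) z

lemma pair_upper (d : ℕ) : ∃ C : ℝ, 0 ≤ C ∧ ∀ (A B : K[X]) (H : ℝ) (z : K), 0 ≤ H →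
    A.natDegree ≤ d → B.natDegree ≤ d → PB A H → PB B H →
    logHeight ![A.eval z, B.eval z] ≤ d * logHeight₁ z + C * (H + 1) := by
  refine ⟨totalWeight K * Real.log (d + 1 : ℕ) + 2 * (d + 1), ?_, fun A B H z hH hA hB hA' hB' => ?_⟩
  · have := Real.log_natCast_nonneg (d + 1)
    positivity
  have h1 := logHeight_linearMap_apply_le (K := K)
    (fun p : Fin 2 × Fin (d + 1) => (![A, B] p.1).coeff p.2) (fun j : Fin (d + 1) => z ^ (j : ℕ))
  have h2 := veronese_le d z
  have h3 := tuple_le_card (fun p : Fin 2 × Fin (d + 1) => (![A, B] p.1).coeff p.2) H (by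
    rintro ⟨a, j⟩
    fin_cases a
    · exact hA' _
    · exact hB' _)
  have h4 : (fun a : Fin 2 => ∑ j : Fin (d + 1), (![A, B] a).coeff j * z ^ (j : ℕ))
      = ![A.eval z, B.eval z] := by
    funext a
    fin_cases a
    · simp [eval_eq_sum_fin A hA]
    · simp [eval_eq_sum_fin B hB]
  simp only at h1
  rw [h4] at h1
  simp only [Nat.card_eq_fintype_card, Fintype.card_fin, Fintype.card_prod] at h1 h3
  have h5 := Real.log_natCast_nonneg (d + 1)
  have h6 : 0 ≤ (totalWeight K : ℝ) * Real.log (d + 1 : ℕ) * H := by positivity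
  push_cast at h3 h6 h1 ⊢
  nlinarith

omit [AdmissibleAbsValues K] in
lemma bezout_deg {A B : K[X]} {d : ℕ} (hA : A.natDegree = d) (hA0 : A ≠ 0) (hB : B.natDegree ≤ d)
    (hc : IsCoprime A B) (T : K[X]) (hT : T.natDegree ≤ 2 * d) :
    ∃ U V : K[X], U.natDegree ≤ d ∧ V.natDegree ≤ d ∧ A * U + B * V = T := by
  obtain ⟨P, Q, hPQ⟩ := hc
  have hV : ((Q * T) % A).natDegree ≤ d := by
    have := natDegree_le_natDegree (degree_mod_lt (Q * T) hA0).le
    omega
  have hdiv := EuclideanDomain.div_add_mod (Q * T) A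
  have hmain : A * (P * T + B * (Q * T / A)) + B * ((Q * T) % A) = T := by
    linear_combination T * hPQ + B * hdiv
  refine ⟨_, _, ?_, hV, hmain⟩
  by_cases hU : P * T + B * (Q * T / A) = 0
  · simp [hU]
  have h1 : A * (P * T + B * (Q * T / A)) = T - B * ((Q * T) % A) := by
    linear_combination hmain
  have h2 := natDegree_mul hA0 hU
  have h3 := natDegree_sub_le T (B * ((Q * T) % A))
  have h4 := natDegree_mul_le (p := B) (q := (Q * T) % A)
  rw [h1] at h2
  omega

lemma PB_X_pow (j : ℕ) {H : ℝ} (hH : 0 ≤ H) : PB (X ^ j : K[X]) H := by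
  intro k
  rw [coeff_X_pow]
  split_ifs <;> simpa using hH

lemma pair_lower (d : ℕ) : ∃ C : ℝ, 0 ≤ C ∧ ∀ (A B : K[X]) (H : ℝ) (z : K), 0 ≤ H →
    max A.natDegree B.natDegree = d → IsCoprime A B → PB A H → PB B H →
    d * logHeight₁ z ≤ logHeight ![A.eval z, B.eval z] + C * (H + 1) := by
  obtain ⟨C₀, hC, hs⟩ := solve_pair (K := K) d
  refine ⟨totalWeight K * Real.log (2 * (d + 1) : ℕ) + 4 * (d + 1) * C₀, ?_,
    fun A B H z hH hd hc hA hB => ?_⟩
  · have := Real.log_natCast_nonneg (2 * (d + 1))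
    positivity
  have hAd : A.natDegree ≤ d := hd ▸ le_max_left _ _
  have hBd : B.natDegree ≤ d := hd ▸ le_max_right _ _
  have hl := Real.log_natCast_nonneg (2 * (d + 1))
  rcases Nat.eq_zero_or_pos d with rfl | hd0
  · have := logHeight_nonneg ![A.eval z, B.eval z]
    simp only [Nat.cast_zero, zero_mul]
    positivity
  have hex : ∀ T : K[X], T.natDegree ≤ 2 * d →
      ∃ U V : K[X], U.natDegree ≤ d ∧ V.natDegree ≤ d ∧ A * U + B * V = T := by
    intro T hT
    rcases max_choice A.natDegree B.natDegree with h | h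
    · rw [h] at hd
      exact bezout_deg hd (by rintro rfl; simp at hd; omega) hBd hc T hT
    · rw [h] at hd
      obtain ⟨U, V, h1, h2, h3⟩ := bezout_deg hd (by rintro rfl; simp at hd; omega) hAd hc.symm T hT
      exact ⟨V, U, h2, h1, by rw [add_comm]; exact h3⟩
  have hex' : ∀ j : ℕ, j ≤ 2 * d → ∃ U V : K[X], U.natDegree ≤ d ∧ V.natDegree ≤ d ∧
      A * U + B * V = X ^ j ∧ PB U (C₀ * (H + 1)) ∧ PB V (C₀ * (H + 1)) := by
    intro j hj
    obtain ⟨U, V, h1, h2, h3⟩ := hex (X ^ j) (by simpa using hj)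
    obtain ⟨U, V, h1, h2, h3, -, h4, h5⟩ := hs A B (X ^ j) 0 0 0 0 H hH hA hB (PB_X_pow j hH)
      (by simpa using hH) (by simpa using hH) (by simpa using hH) ⟨U, V, h1, h2, h3, by simp⟩
    exact ⟨U, V, h1, h2, h3, h4, h5⟩
  obtain ⟨U₀, V₀, hU₀, hV₀, e₀, bU₀, bV₀⟩ := hex' (2 * d) le_rfl
  obtain ⟨U₁, V₁, hU₁, hV₁, e₁, bU₁, bV₁⟩ := hex' 0 (by omega)
  have hne : ![A.eval z, B.eval z] ≠ 0 := by
    intro h
    have h0 : A.eval z = 0 := by simpa using congrFun h 0
    have h1 : B.eval z = 0 := by simpa using congrFun h 1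
    have := congrArg (eval z) e₁
    simp [h0, h1] at this
  have hne' : (fun j : Fin (d + 1) => z ^ (j : ℕ)) ≠ 0 := by
    intro h
    simpa using congrFun h 0
  let L : Fin 2 × (Fin 2 × Fin (d + 1)) → K := fun p =>
    (![![U₀, V₀], ![U₁, V₁]] p.1 p.2.1).coeff p.2.2
  have h1 := logHeight_linearMap_apply_le (K := K) L
    (fun p : Fin 2 × Fin (d + 1) => ![A.eval z, B.eval z] p.1 * z ^ (p.2 : ℕ))
  have h2 := logHeight_fun_mul_eq hne hne'
  have h3 := tuple_le_card L (C₀ * (H + 1)) (by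
    rintro ⟨a, b, j⟩
    fin_cases a <;> fin_cases b
    · exact bU₀ _
    · exact bV₀ _
    · exact bU₁ _
    · exact bV₁ _)
  have h4 : ∀ U V : K[X], U.natDegree ≤ d → V.natDegree ≤ d →
      ∑ p : Fin 2 × Fin (d + 1), (![U, V] p.1).coeff p.2 *
        (![A.eval z, B.eval z] p.1 * z ^ (p.2 : ℕ)) = (A * U + B * V).eval z := by
    intro U V hU hV
    rw [Fintype.sum_prod_type, Fin.sum_univ_two, eval_add, eval_mul, eval_mul,
      eval_eq_sum_fin U hU, eval_eq_sum_fin V hV, mul_sum, mul_sum]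
    congr 1 <;> refine sum_congr rfl fun j _ => ?_ <;> simp <;> ring
  have h5 : (fun a : Fin 2 => ∑ p : Fin 2 × Fin (d + 1), L (a, p) *
      (![A.eval z, B.eval z] p.1 * z ^ (p.2 : ℕ))) = ![z ^ (2 * d), 1] := by
    funext a
    fin_cases a
    · have := h4 U₀ V₀ hU₀ hV₀
      rw [e₀] at this
      simpa [L] using this
    · have := h4 U₁ V₁ hU₁ hV₁
      rw [e₁] at this
      simpa [L] using this
  rw [h5, h2, ← logHeight₁_eq_logHeight, logHeight₁_pow] at h1
  have h6 := veronese_le d z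
  simp only [Nat.card_eq_fintype_card, Fintype.card_fin, Fintype.card_prod] at h1 h3
  have h7 : 0 ≤ (totalWeight K : ℝ) * Real.log (2 * (d + 1) : ℕ) * H := by positivity
  push_cast at h3 h7 h1 hl ⊢
  nlinarith

omit [AdmissibleAbsValues K] in
/-- the pair `(A, B)` is proportional to a nonzero pair of degree at most `d` -/
def Red (A B : K[X]) (d : ℕ) : Prop :=
  ∃ U V : K[X], U.natDegree ≤ d ∧ V.natDegree ≤ d ∧ (U ≠ 0 ∨ V ≠ 0) ∧ A * V = B * U

omit [AdmissibleAbsValues K] in
lemma Red.mono {A B : K[X]} {d d' : ℕ} (h : Red A B d) (hd : d ≤ d') : Red A B d' := by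
  obtain ⟨U, V, h1, h2, h3, h4⟩ := h
  exact ⟨U, V, h1.trans hd, h2.trans hd, h3, h4⟩

omit [AdmissibleAbsValues K] in
lemma red_self (A B : K[X]) : Red A B (max A.natDegree B.natDegree) := by
  by_cases h : A ≠ 0 ∨ B ≠ 0
  · exact ⟨A, B, le_max_left _ _, le_max_right _ _, h, mul_comm _ _⟩
  · push Not at h
    exact ⟨1, 0, by simp, by simp, Or.inl one_ne_zero, by simp [h.1, h.2]⟩

open Classical in
/-- the degree of the rational function `A / B` -/
noncomputable def rdeg (A B : K[X]) : ℕ := Nat.find (⟨_, red_self A B⟩ : ∃ d, Red A B d)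

omit [AdmissibleAbsValues K] in
lemma red_rdeg (A B : K[X]) : Red A B (rdeg A B) := by
  classical
  exact Nat.find_spec (⟨_, red_self A B⟩ : ∃ d, Red A B d)

omit [AdmissibleAbsValues K] in
lemma rdeg_le_iff {A B : K[X]} {d : ℕ} : rdeg A B ≤ d ↔ Red A B d := by
  classical
  exact ⟨fun h => (red_rdeg A B).mono h, fun h => Nat.find_min' _ h⟩

omit [AdmissibleAbsValues K] in
lemma minimal_pair {A B U V : K[X]} (hU : U.natDegree ≤ rdeg A B) (hV : V.natDegree ≤ rdeg A B)
    (hne : U ≠ 0 ∨ V ≠ 0) (he : A * V = B * U) :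
    max U.natDegree V.natDegree = rdeg A B ∧ IsCoprime U V := by
  classical
  have h1 : max U.natDegree V.natDegree = rdeg A B :=
    le_antisymm (max_le hU hV) (rdeg_le_iff.2 ⟨U, V, le_max_left _ _, le_max_right _ _, hne, he⟩)
  refine ⟨h1, ?_⟩
  rw [← EuclideanDomain.gcd_isUnit_iff]
  obtain ⟨U', hU'⟩ := EuclideanDomain.gcd_dvd_left U V
  obtain ⟨V', hV'⟩ := EuclideanDomain.gcd_dvd_right U V
  set g := EuclideanDomain.gcd U V with hg
  have hg0 : g ≠ 0 := by
    intro h
    rw [h, zero_mul] at hU' hV'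
    tauto
  by_contra hnu
  have hgd : 0 < g.natDegree := by
    by_contra h
    have h0 : g.natDegree = 0 := by omega
    apply hnu
    rw [eq_C_of_natDegree_eq_zero h0] at hg0 ⊢
    exact isUnit_C.2 (IsUnit.mk0 _ fun h' => hg0 (by rw [h', map_zero]))
  have he' : A * V' = B * U' := by
    apply mul_left_cancel₀ hg0
    rw [mul_left_comm, ← hV', he, mul_left_comm g, ← hU']
  have hne' : U' ≠ 0 ∨ V' ≠ 0 := by
    rcases hne with h | h
    · left; rintro rfl; exact h (by rw [hU', mul_zero])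
    · right; rintro rfl; exact h (by rw [hV', mul_zero])
  have h2 : rdeg A B ≤ max U'.natDegree V'.natDegree :=
    rdeg_le_iff.2 ⟨U', V', le_max_left _ _, le_max_right _ _, hne', he'⟩
  have hdU : U' ≠ 0 → U.natDegree = g.natDegree + U'.natDegree := fun h => by
    rw [hU', natDegree_mul hg0 h]
  have hdV : V' ≠ 0 → V.natDegree = g.natDegree + V'.natDegree := fun h => by
    rw [hV', natDegree_mul hg0 h]
  by_cases a : U' = 0
  · have b : V' ≠ 0 := by tauto
    have := hdV b
    simp only [a, natDegree_zero] at h2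
    omega
  · by_cases b : V' = 0
    · have := hdU a
      simp only [b, natDegree_zero] at h2
      omega
    · have := hdU a
      have := hdV b
      omega

lemma rat_height_aux (d : ℕ) : ∃ C : ℝ, 0 ≤ C ∧ ∀ (A B : K[X]) (H : ℝ) (z : K), 0 ≤ H →
    rdeg A B = d → PB A H → PB B H → ![A.eval z, B.eval z] ≠ 0 →
    |logHeight ![A.eval z, B.eval z] - d * logHeight₁ z| ≤ C * (H + 1) := by
  obtain ⟨C₀, hC₀, hs⟩ := solve_pair (K := K) d
  obtain ⟨C₁, hC₁, hu⟩ := pair_upper (K := K) d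
  obtain ⟨C₂, hC₂, hl⟩ := pair_lower (K := K) d
  refine ⟨(C₁ + C₂) * (C₀ + 1), by positivity, fun A B H z hH hd hA hB hne => ?_⟩
  have hB' : PB (-B) H := fun k => by simpa using hB k
  have h0 : PB (0 : K[X]) H := fun k => by simpa using hH
  have hex : ∃ U V : K[X], U.natDegree ≤ d ∧ V.natDegree ≤ d ∧ (U ≠ 0 ∨ V ≠ 0) ∧ A * V = B * U ∧
      PB U (C₀ * (H + 1)) ∧ PB V (C₀ * (H + 1)) := by
    obtain ⟨U, V, h1, h2, h3, h4⟩ := hd ▸ red_rdeg A B
    have key : ∀ (j : ℕ) (α β : K), logHeight₁ α ≤ H → logHeight₁ β ≤ H →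
        α * U.coeff j + β * V.coeff j ≠ 0 →
        ∃ U V : K[X], U.natDegree ≤ d ∧ V.natDegree ≤ d ∧ (U ≠ 0 ∨ V ≠ 0) ∧ A * V = B * U ∧
          PB U (C₀ * (H + 1)) ∧ PB V (C₀ * (H + 1)) := by
      intro j α β hα hβ hc
      set c := α * U.coeff j + β * V.coeff j with hcd
      obtain ⟨U', V', g1, g2, g3, g4, g5, g6⟩ := hs (-B) A 0 j α β 1 H hH hB' hA h0 hα hβ
        (by simpa using hH) ⟨C c⁻¹ * U, C c⁻¹ * V, (natDegree_C_mul_le _ _).trans h1,
          (natDegree_C_mul_le _ _).trans h2, by linear_combination (C c⁻¹) * h4, by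
            simp only [coeff_C_mul]
            field_simp
            rfl⟩
      refine ⟨U', V', g1, g2, ?_, by linear_combination g3, g5, g6⟩
      by_contra hcon
      push Not at hcon
      simp [hcon.1, hcon.2] at g4
    rcases h3 with h | h
    · exact key U.natDegree 1 0 (by simpa using hH) (by simpa using hH) (by simpa using h)
    · exact key V.natDegree 0 1 (by simpa using hH) (by simpa using hH) (by simpa using h)
  obtain ⟨U, V, h1, h2, h3, h4, h5, h6⟩ := hex
  obtain ⟨hm, hc⟩ := minimal_pair (hd ▸ h1) (hd ▸ h2) h3 h4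
  rw [hd] at hm
  have hH' : 0 ≤ C₀ * (H + 1) := by positivity
  have e1 := hu U V _ z hH' h1 h2 h5 h6
  have e2 := hl U V _ z hH' hm hc h5 h6
  have heq : logHeight ![A.eval z, B.eval z] = logHeight ![U.eval z, V.eval z] := by
    have h7 : A.eval z * V.eval z = B.eval z * U.eval z := by
      simpa using congrArg (eval z) h4
    obtain ⟨P, Q, hPQ⟩ := hc
    have h8 : P.eval z * U.eval z + Q.eval z * V.eval z = 1 := by
      simpa using congrArg (eval z) hPQ
    set c := P.eval z * A.eval z + Q.eval z * B.eval z with hcd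
    have h9 : ![A.eval z, B.eval z] = c • ![U.eval z, V.eval z] := by
      funext a
      fin_cases a
      · simp only [Fin.zero_eta, Matrix.cons_val_zero, Pi.smul_apply, smul_eq_mul, hcd]
        linear_combination (-A.eval z) * h8 + Q.eval z * h7
      · simp only [Fin.mk_one, Matrix.cons_val_one, Matrix.cons_val_fin_one, Pi.smul_apply,
          smul_eq_mul, hcd]
        linear_combination (-B.eval z) * h8 - P.eval z * h7
    have hc0 : c ≠ 0 := by
      rintro h
      rw [h, zero_smul] at h9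
      exact hne h9
    rw [h9, logHeight_smul_eq_logHeight _ hc0]
  rw [heq, abs_le]
  have e3 : C₀ * (H + 1) + 1 ≤ (C₀ + 1) * (H + 1) := by nlinarith
  have e4 := mul_le_mul_of_nonneg_left e3 hC₁
  have e5 := mul_le_mul_of_nonneg_left e3 hC₂
  have e6 : 0 ≤ C₁ * ((C₀ + 1) * (H + 1)) := by positivity
  have e7 : 0 ≤ C₂ * ((C₀ + 1) * (H + 1)) := by positivity
  constructor <;> nlinarith

lemma rat_height (D : ℕ) : ∃ C : ℝ, 0 ≤ C ∧ ∀ (A B : K[X]) (H : ℝ) (z : K), 0 ≤ H →
    rdeg A B ≤ D → PB A H → PB B H → ![A.eval z, B.eval z] ≠ 0 →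
    |logHeight ![A.eval z, B.eval z] - rdeg A B * logHeight₁ z| ≤ C * (H + 1) := by
  choose C hC h using rat_height_aux (K := K)
  refine ⟨∑ d ∈ range (D + 1), C d, sum_nonneg fun d _ => hC d, fun A B H z hH hD hA hB hne => ?_⟩
  refine (h _ A B H z hH rfl hA hB hne).trans ?_
  apply mul_le_mul_of_nonneg_right _ (by positivity)
  exact single_le_sum (f := C) (fun d _ => hC d) (mem_range.2 (by omega))

end Pool.Agent.MP_195eb9_ag
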