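import Pool.Agent.MP_195eb9_ag.Growth
import Pool.Agent.MP_195eb9_ag.RatHeight

/-! Existence of the arithmetic degree for towers of skew products with fibre the line. -/

namespace Pool.Agent.MP_195eb9_ag

open Filter Topology Finset Height Polynomial

section openness

variable {K σ : Type*} [Field K]

lemma rdeg_open (A B : (MvPolynomial σ K)[X]) (w₀ : σ → K) (d₀ : ℕ)
    (h : d₀ ≤ rdeg (A.map (MvPolynomial.eval w₀)) (B.map (MvPolynomial.eval w₀))) :
    ∃ Δ : MvPolynomial σ K, MvPolynomial.eval w₀ Δ ≠ 0 ∧ ∀ w : σ → K, MvPolynomial.eval w Δ ≠ 0 →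
      d₀ ≤ rdeg (A.map (MvPolynomial.eval w)) (B.map (MvPolynomial.eval w)) := by
  classical
  rcases d₀ with _ | e
  · exact ⟨1, by simp, fun _ _ => Nat.zero_le _⟩
  let Q : Fin (e + 1) ⊕ Fin (e + 1) → (MvPolynomial σ K)[X] :=
    Sum.elim (fun j => -(B * X ^ (j : ℕ))) (fun j => A * X ^ (j : ℕ))
  let L : (σ → K) → ((Fin (e + 1) ⊕ Fin (e + 1) → K) →ₗ[K] K[X]) := fun w =>
    Fintype.linearCombination K fun j => (Q j).map (MvPolynomial.eval w)
  have hL : ∀ w x, L w x =
      A.map (MvPolynomial.eval w) * (∑ j : Fin (e + 1), C (x (Sum.inr j)) * X ^ (j : ℕ)) -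
      B.map (MvPolynomial.eval w) * (∑ j : Fin (e + 1), C (x (Sum.inl j)) * X ^ (j : ℕ)) := by
    intro w x
    simp only [L, Fintype.linearCombination_apply, Fintype.sum_sum_type, Q, Sum.elim_inl,
      Sum.elim_inr, Polynomial.map_neg, Polynomial.map_mul, Polynomial.map_pow, map_X,
      smul_eq_C_mul, mul_sum]
    rw [sub_eq_neg_add, ← sum_neg_distrib]
    congr 1 <;> refine sum_congr rfl fun j _ => by ring
  have hred : ∀ w, Red (A.map (MvPolynomial.eval w)) (B.map (MvPolynomial.eval w)) e ↔
      ∃ x, x ≠ 0 ∧ L w x = 0 := by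
    intro w
    constructor
    · rintro ⟨U, V, h1, h2, h3, h4⟩
      refine ⟨Sum.elim (fun j => U.coeff j) (fun j => V.coeff j), ?_, ?_⟩
      · intro h0
        have hU : U = 0 := by
          rw [as_sum_fin U h1]
          refine sum_eq_zero fun j _ => ?_
          have : U.coeff j = 0 := congrFun h0 (Sum.inl j)
          simp [this]
        have hV : V = 0 := by
          rw [as_sum_fin V h2]
          refine sum_eq_zero fun j _ => ?_
          have : V.coeff j = 0 := congrFun h0 (Sum.inr j)
          simp [this]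
        tauto
      · rw [hL]
        simp only [Sum.elim_inl, Sum.elim_inr]
        rw [← as_sum_fin U h1, ← as_sum_fin V h2, h4, sub_self]
    · rintro ⟨x, hx, h0⟩
      rw [hL, sub_eq_zero] at h0
      refine ⟨_, _, natDegree_sum_fin _, natDegree_sum_fin _, ?_, h0⟩
      by_contra hcon
      push Not at hcon
      apply hx
      funext j
      rcases j with j | j
      · have := congrArg (fun p : K[X] => p.coeff j) hcon.1
        simpa [coeff_sum_fin, -finsetSum_coeff, j.2] using this
      · have := congrArg (fun p : K[X] => p.coeff j) hcon.2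
        simpa [coeff_sum_fin, -finsetSum_coeff, j.2] using this
  have hinj : LinearMap.ker (L w₀) = ⊥ := by
    rw [LinearMap.ker_eq_bot']
    intro x hx
    by_contra hne
    have := rdeg_le_iff.2 ((hred w₀).2 ⟨x, hne, hx⟩)
    omega
  obtain ⟨g, hg⟩ := LinearMap.exists_leftInverse_of_injective _ hinj
  let M : Matrix (Fin (e + 1) ⊕ Fin (e + 1)) (Fin (e + 1) ⊕ Fin (e + 1)) (MvPolynomial σ K) :=
    fun i j => ∑ k ∈ (Q j).support, (Q j).coeff k * MvPolynomial.C (g (X ^ k) i)
  have hM : ∀ (w : σ → K) i j, MvPolynomial.eval w (M i j)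
      = g ((Q j).map (MvPolynomial.eval w)) i := by
    intro w i j
    have h1 : (Q j).map (MvPolynomial.eval w)
        = ∑ k ∈ (Q j).support, (MvPolynomial.eval w ((Q j).coeff k)) • (X ^ k : K[X]) := by
      conv_lhs => rw [(Q j).as_sum_support_C_mul_X_pow]
      simp [Polynomial.map_sum, smul_eq_C_mul]
    rw [h1]
    simp [M, map_sum]
  have hMv : ∀ (w : σ → K) x, ((MvPolynomial.eval w).mapMatrix M).mulVec x = g (L w x) := by
    intro w x
    funext i
    simp only [Matrix.mulVec, dotProduct, RingHom.mapMatrix_apply, Matrix.map_apply, hM, L,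
      Fintype.linearCombination_apply, map_sum, map_smul, Finset.sum_apply, Pi.smul_apply,
      smul_eq_mul]
    exact sum_congr rfl fun j _ => mul_comm _ _
  refine ⟨M.det, ?_, fun w hw => ?_⟩
  · rw [RingHom.map_det]
    intro h0
    obtain ⟨x, hx, hx0⟩ := Matrix.exists_mulVec_eq_zero_iff.2 h0
    rw [hMv] at hx0
    apply hx
    have := LinearMap.congr_fun hg x
    simpa [hx0] using this.symm
  · rw [RingHom.map_det] at hw
    by_contra hlt
    obtain ⟨x, hx, hx0⟩ := (hred w).1 (rdeg_le_iff.1 (by omega))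
    apply hx
    apply Matrix.eq_zero_of_mulVec_eq_zero hw
    rw [hMv, hx0, map_zero]

lemma rdeg_map_le (A B : (MvPolynomial σ K)[X]) (w : σ → K) :
    rdeg (A.map (MvPolynomial.eval w)) (B.map (MvPolynomial.eval w)) ≤
      max A.natDegree B.natDegree :=
  rdeg_le_iff.2 ((red_self _ _).mono (max_le_max natDegree_map_le natDegree_map_le))

lemma ua_rdeg [Finite σ] (Φ : σ → MvPolynomial σ K) (w : ℕ → σ → K)
    (hw : ∀ n v, w (n + 1) v = MvPolynomial.eval (w n) (Φ v)) (A B : (MvPolynomial σ K)[X]) :
    ∃ ℓ, UA (fun n => rdeg (A.map (MvPolynomial.eval (w n))) (B.map (MvPolynomial.eval (w n)))) ℓ := by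
  obtain ⟨a, k, hk, h⟩ := weak_dml Φ w hw
  set d : ℕ → ℕ := fun n =>
    rdeg (A.map (MvPolynomial.eval (w n))) (B.map (MvPolynomial.eval (w n))) with hd
  have hdD : ∀ n, d n ≤ max A.natDegree B.natDegree := fun n => rdeg_map_le A B _
  let T : ℕ → Set ℕ := fun n => d '' {m | a ≤ m ∧ m % k = n % k}
  have hTb : ∀ n, BddAbove (T n) := fun n => ⟨_, by rintro _ ⟨m, -, rfl⟩; exact hdD m⟩
  have hTn : ∀ n, (T n).Nonempty := fun n =>
    ⟨_, ⟨n + k * a, ⟨by nlinarith, by simp⟩, rfl⟩⟩
  refine ua_of_BZ (G := fun n => sSup (T n)) hk hdD (fun n => ?_) (fun n => by simp [T]) ?_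
  · obtain ⟨m, -, hm⟩ := Nat.sSup_mem (hTn n) (hTb n)
    simp only [← hm]
    exact hdD m
  · have key : ∀ i, i < k → BZ ({n | d n ≠ sSup (T n)} ∩ {n | ∃ t, n = a + i + k * t}) := by
      intro i hi
      obtain ⟨m, ⟨hm1, hm2⟩, hm⟩ := Nat.sSup_mem (hTn (a + i)) (hTb (a + i))
      obtain ⟨Δ, hΔ, hΔ'⟩ := rdeg_open A B (w m) (d m) le_rfl
      rcases h Δ i with h1 | h1
      · exfalso
        obtain ⟨s, rfl⟩ := Nat.exists_eq_add_of_le hm1
        have h2 : s % k = i := by
          have := Nat.ModEq.add_left_cancel' a (show a + s ≡ a + i [MOD k] from hm2)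
          rw [Nat.ModEq, Nat.mod_eq_of_lt hi] at this
          exact this
        apply hΔ
        have := h1 (s / k)
        rwa [add_assoc, ← h2, Nat.mod_add_div] at this
      · apply h1.mono
        rintro n ⟨hn, t, rfl⟩
        refine ⟨?_, t, rfl⟩
        by_contra hne
        apply hn
        have e1 : T (a + i + k * t) = T (a + i) := by simp [T]
        have e2 := hΔ' _ hne
        rw [e1]
        apply le_antisymm
        · exact le_csSup (hTb _) ⟨_, ⟨by omega, by simp⟩, rfl⟩
        · rw [← hm]; exact e2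
    refine ((BZ.of_finite (Set.finite_lt_nat a)).union
      (BZ.biUnion (range k) _ fun i hi => key i (mem_range.1 hi))).mono ?_
    intro n hn
    by_cases hna : n < a
    · exact Or.inl hna
    · right
      simp only [Set.mem_iUnion]
      refine ⟨(n - a) % k, mem_range.2 (Nat.mod_lt _ hk), hn, (n - a) / k, ?_⟩
      rw [add_assoc, Nat.mod_add_div]
      omega

end openness

section fibre

variable {K : Type*} [Field K] {r N : ℕ}

/-- scaling of multihomogeneous polynomials -/
lemma eval_scale {σ τ : Type*} [Fintype τ] [DecidableEq τ] (f : σ → τ) (p : MvPolynomial σ K)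
    (e : τ → ℕ) (hp : p.IsWeightedHomogeneous (fun v => (Pi.single (f v) 1 : τ → ℕ)) e)
    (c : τ → K) (w : σ → K) :
    MvPolynomial.eval (fun v => c (f v) * w v) p = (∏ j, c j ^ e j) * MvPolynomial.eval w p := by
  rw [MvPolynomial.eval_eq, MvPolynomial.eval_eq, mul_sum]
  refine sum_congr rfl fun m hm => ?_
  have h1 := hp (MvPolynomial.mem_support_iff.1 hm)
  have h2 : ∀ s : Finset σ, ∏ j, c j ^ ((∑ v ∈ s, m v • (Pi.single (f v) 1 : τ → ℕ)) j)
      = ∏ v ∈ s, c (f v) ^ m v := by
    intro s
    classical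
    induction s using Finset.induction_on with
    | empty => simp
    | insert v s hv ih =>
      rw [sum_insert hv, prod_insert hv, ← ih]
      simp only [Pi.add_apply, pow_add, prod_mul_distrib]
      congr 1
      rw [Finset.prod_eq_single (f v)]
      · simp
      · intro b _ hb
        simp [hb]
      · simp
  rw [← h1, Finsupp.weight_apply, Finsupp.sum, h2]
  simp only [mul_pow, prod_mul_distrib]
  ring

/-- the dehomogenisation in the `i`-th factor -/
noncomputable def fib (i : Fin N) (p : MvPolynomial (Fin (r + 1) ⊕ Fin N × Fin 2) K) :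
    (MvPolynomial (Fin (r + 1) ⊕ Fin N × Fin 2) K)[X] :=
  MvPolynomial.aeval (fun v => if factor v = some i then (if v = Sum.inr (i, 0) then X else 1)
    else C (MvPolynomial.X v)) p

/-- replacing the coordinates in the `i`-th factor -/
def upd (i : Fin N) (w : Fin (r + 1) ⊕ Fin N × Fin 2 → K) (s t : K) :
    Fin (r + 1) ⊕ Fin N × Fin 2 → K :=
  fun v => if factor v = some i then (if v = Sum.inr (i, 0) then s else t) else w v

lemma eval_fib (i : Fin N) (p : MvPolynomial (Fin (r + 1) ⊕ Fin N × Fin 2) K)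
    (w : Fin (r + 1) ⊕ Fin N × Fin 2 → K) (z : K) :
    ((fib i p).map (MvPolynomial.eval w)).eval z = MvPolynomial.eval (upd i w z 1) p := by
  unfold fib
  induction p using MvPolynomial.induction_on with
  | C a => simp
  | add p q hp hq => simp only [map_add, Polynomial.map_add, eval_add, hp, hq]
  | mul_X p v hp =>
    simp only [map_mul, Polynomial.map_mul, eval_mul, hp, MvPolynomial.aeval_X,
      MvPolynomial.eval_X, upd]
    congr 1
    split_ifs <;> simp

omit [Field K] in
lemma coords_update (i : Fin N) (y : Fin (r + 1) → K) (x : Fin N → Fin 2 → K) (t : Fin 2 → K) :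
    coords y (Function.update x i t) = upd i (coords y x) (t 0) (t 1) := by
  funext v
  rcases v with a | ⟨j, a⟩
  · simp [coords, upd, factor]
  · by_cases h : j = i
    · subst h
      fin_cases a <;> simp [coords, upd, factor]
    · simp [coords, upd, factor, h]

omit [Field K] in
lemma upd_self (i : Fin N) (y : Fin (r + 1) → K) (x : Fin N → Fin 2 → K) :
    upd i (coords y x) (x i 0) (x i 1) = coords y x := by
  rw [← coords_update, Function.update_eq_self]

lemma eval_upd_scale (i : Fin N) (p : MvPolynomial (Fin (r + 1) ⊕ Fin N × Fin 2) K)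
    (e : Option (Fin N) → ℕ)
    (hp : p.IsWeightedHomogeneous (fun v => (Pi.single (factor v) 1 : Option (Fin N) → ℕ)) e)
    (w : Fin (r + 1) ⊕ Fin N × Fin 2 → K) (s t c : K) :
    MvPolynomial.eval (upd i w (c * s) (c * t)) p
      = c ^ e (some i) * MvPolynomial.eval (upd i w s t) p := by
  have h := eval_scale factor p e hp (fun j => if j = some i then c else 1) (upd i w s t)
  rw [Finset.prod_eq_single (some i) (by intro b _ hb; simp [hb]) (by simp)] at h
  simp only [if_true] at h
  rw [← h]
  congr 2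
  funext v
  unfold upd
  split_ifs <;> simp

lemma rdeg_smul (A B : K[X]) {c : K} (hc : c ≠ 0) : rdeg (C c * A) (C c * B) = rdeg A B := by
  have key : ∀ d, Red (C c * A) (C c * B) d ↔ Red A B d := by
    intro d
    constructor
    · rintro ⟨U, V, h1, h2, h3, h4⟩
      refine ⟨U, V, h1, h2, h3, mul_left_cancel₀ (C_ne_zero.2 hc) ?_⟩
      linear_combination h4
    · rintro ⟨U, V, h1, h2, h3, h4⟩
      exact ⟨U, V, h1, h2, h3, by linear_combination (C c) * h4⟩
  exact le_antisymm (rdeg_le_iff.2 ((key _).2 (red_rdeg A B)))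
    (rdeg_le_iff.2 ((key _).1 (red_rdeg _ _)))

lemma rdeg_eq_zero_iff [Infinite K] (i : Fin N)
    (F : Fin 2 → MvPolynomial (Fin (r + 1) ⊕ Fin N × Fin 2) K) (e : Option (Fin N) → ℕ)
    (hF : ∀ a, (F a).IsWeightedHomogeneous
      (fun v => (Pi.single (factor v) 1 : Option (Fin N) → ℕ)) e)
    (y : Fin (r + 1) → K) (x : Fin N → Fin 2 → K) :
    rdeg ((fib i (F 0)).map (MvPolynomial.eval (coords y x)))
        ((fib i (F 1)).map (MvPolynomial.eval (coords y x))) = 0 ↔
      ∃ c : Fin 2 → K, c ≠ 0 ∧ ∀ t : Fin 2 → K,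
        ∑ a, c a * MvPolynomial.eval (coords y (Function.update x i t)) (F a) = 0 := by
  rw [← Nat.le_zero, rdeg_le_iff]
  constructor
  · rintro ⟨U, V, h1, h2, h3, h4⟩
    rw [eq_C_of_natDegree_le_zero h1, eq_C_of_natDegree_le_zero h2] at h3 h4
    refine ⟨![V.coeff 0, -U.coeff 0], ?_, fun t => ?_⟩
    · intro h
      have e0 : V.coeff 0 = 0 := by simpa using congrFun h 0
      have e1 : U.coeff 0 = 0 := by simpa using congrFun h 1
      simp [e0, e1] at h3
    · have key : ∀ s u : K, u ≠ 0 → V.coeff 0 * MvPolynomial.eval (upd i (coords y x) s u) (F 0) +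
          -U.coeff 0 * MvPolynomial.eval (upd i (coords y x) s u) (F 1) = 0 := by
        intro s u hu
        have e1 := congrArg (eval (s / u)) h4
        simp only [eval_mul, eval_C, eval_fib] at e1
        have e2 := eval_upd_scale i (F 0) e (hF 0) (coords y x) (s / u) 1 u
        have e3 := eval_upd_scale i (F 1) e (hF 1) (coords y x) (s / u) 1 u
        rw [mul_div_cancel₀ _ hu, mul_one] at e2 e3
        rw [e2, e3]
        linear_combination u ^ e (some i) * e1
      let g : Fin (r + 1) ⊕ Fin N × Fin 2 → K[X] := fun v =>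
        if factor v = some i then (if v = Sum.inr (i, 0) then C (t 0) else X) else C (coords y x v)
      have hg : ∀ (p : MvPolynomial (Fin (r + 1) ⊕ Fin N × Fin 2) K) (u : K),
          (MvPolynomial.aeval g p).eval u = MvPolynomial.eval (upd i (coords y x) (t 0) u) p := by
        intro p u
        induction p using MvPolynomial.induction_on with
        | C a => simp
        | add p q hp hq => simp only [map_add, eval_add, hp, hq]
        | mul_X p v hp =>
          simp only [map_mul, eval_mul, hp, MvPolynomial.aeval_X, MvPolynomial.eval_X, upd, g]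
          congr 1
          split_ifs <;> simp
      have hq : C (V.coeff 0) * MvPolynomial.aeval g (F 0) +
          C (-U.coeff 0) * MvPolynomial.aeval g (F 1) = 0 := by
        apply eq_zero_of_infinite_isRoot
        refine (Set.finite_singleton (0 : K)).infinite_compl.mono ?_
        intro u hu
        simp only [Set.mem_ofPred_eq, IsRoot.def, eval_add, eval_mul, eval_C, hg]
        exact key _ _ hu
      have := congrArg (eval (t 1)) hq
      simp only [eval_add, eval_mul, eval_C, hg, eval_zero] at this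
      rw [Fin.sum_univ_two, coords_update]
      simpa using this
  · rintro ⟨c, hc, h⟩
    refine ⟨C (-c 1), C (c 0), by simp, by simp, ?_, ?_⟩
    · by_contra hcon
      push Not at hcon
      apply hc
      funext a
      fin_cases a
      · simpa using hcon.2
      · simpa using hcon.1
    · apply Polynomial.funext
      intro z
      have := h ![z, 1]
      rw [Fin.sum_univ_two, coords_update] at this
      simp only [eval_mul, eval_C, eval_fib]
      simp only [Matrix.cons_val_zero, Matrix.cons_val_one] at this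
      linear_combination this

variable [AdmissibleAbsValues K]

lemma eval_height {σ : Type*} (p : MvPolynomial σ K) : ∃ C : ℝ, 0 ≤ C ∧ ∀ (w : σ → K) (H : ℝ),
    0 ≤ H → (∀ v, logHeight₁ (w v) ≤ H) → logHeight₁ (MvPolynomial.eval w p) ≤ C * (H + 1) := by
  induction p using MvPolynomial.induction_on with
  | C a =>
    refine ⟨logHeight₁ a, h_nonneg a, fun w H hH _ => ?_⟩
    have := h_nonneg a
    simp only [MvPolynomial.eval_C]
    nlinarith
  | add p q hp hq =>
    obtain ⟨C, hC, hp⟩ := hp
    obtain ⟨C', hC', hq⟩ := hq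
    have hw0 : 0 ≤ totalWeight K * Real.log 2 :=
      mul_nonneg (by positivity) (Real.log_nonneg (by norm_num))
    refine ⟨totalWeight K * Real.log 2 + C + C', by positivity, fun w H hH hw => ?_⟩
    have h1 := hp w H hH hw
    have h2 := hq w H hH hw
    have h3 := logHeight₁_add_le (MvPolynomial.eval w p) (MvPolynomial.eval w q)
    rw [map_add]
    nlinarith
  | mul_X p v hp =>
    obtain ⟨C, hC, hp⟩ := hp
    refine ⟨C + 1, by positivity, fun w H hH hw => ?_⟩
    have h1 := hp w H hH hw
    have h3 := logHeight₁_mul_le (MvPolynomial.eval w p) (w v)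
    have := hw v
    rw [map_mul, MvPolynomial.eval_X]
    nlinarith

lemma pb_map {σ : Type*} (A : (MvPolynomial σ K)[X]) : ∃ C : ℝ, 0 ≤ C ∧ ∀ (w : σ → K) (H : ℝ),
    0 ≤ H → (∀ v, logHeight₁ (w v) ≤ H) → PB (A.map (MvPolynomial.eval w)) (C * (H + 1)) := by
  choose C hC h using eval_height (K := K) (σ := σ)
  refine ⟨∑ k ∈ A.support, C (A.coeff k), sum_nonneg fun k _ => hC _, fun w H hH hw k => ?_⟩
  rw [coeff_map]
  by_cases hk : k ∈ A.support
  · refine (h _ w H hH hw).trans ?_
    apply mul_le_mul_of_nonneg_right _ (by positivity)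
    exact single_le_sum (f := fun k => C (A.coeff k)) (fun k _ => hC _) hk
  · rw [notMem_support_iff.1 hk, map_zero, logHeight₁_zero]
    exact mul_nonneg (sum_nonneg fun k _ => hC _) (by positivity)

lemma exists_normalise {ι : Type*} [Finite ι] (t : ι → K) (ht : t ≠ 0) :
    ∃ c : K, c ≠ 0 ∧ ∀ a, logHeight₁ (c * t a) ≤ logHeight t := by
  obtain ⟨a₀, ha₀⟩ := Function.ne_iff.1 ht
  refine ⟨(t a₀)⁻¹, inv_ne_zero ha₀, fun a => ?_⟩
  rw [mul_comm, ← div_eq_mul_inv, logHeight₁_div_eq_logHeight]
  have := logHeight_comp_le ![a, a₀] t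
  refine le_trans (le_of_eq ?_) this
  congr 1
  funext j
  fin_cases j <;> rfl

/-- the height of the base point -/
noncomputable def base (y : Fin (r + 1) → K) (x : Fin N → Fin 2 → K) (i : ℕ) : ℝ :=
  logHeight y + ∑ j ∈ univ.filter (fun j : Fin N => (j : ℕ) < i), logHeight (x j)

lemma base_nonneg (y : Fin (r + 1) → K) (x : Fin N → Fin 2 → K) (i : ℕ) : 0 ≤ base y x i :=
  add_nonneg (logHeight_nonneg _) (sum_nonneg fun _ _ => logHeight_nonneg _)

lemma base_succ (y : Fin (r + 1) → K) (x : Fin N → Fin 2 → K) (i : Fin N) :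
    base y x (i + 1) = base y x i + logHeight (x i) := by
  unfold base
  have : univ.filter (fun j : Fin N => (j : ℕ) < i + 1)
      = insert i (univ.filter (fun j : Fin N => (j : ℕ) < i)) := by
    ext j
    simp only [mem_filter, mem_univ, true_and, mem_insert, Fin.ext_iff]
    omega
  rw [this, sum_insert (by simp)]
  ring

lemma fibre_height [Infinite K] (i : Fin N)
    (F : Fin 2 → MvPolynomial (Fin (r + 1) ⊕ Fin N × Fin 2) K) (e : Option (Fin N) → ℕ)
    (hF : ∀ a, (F a).IsWeightedHomogeneous
      (fun v => (Pi.single (factor v) 1 : Option (Fin N) → ℕ)) e)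
    (he : ∀ j, i < j → e (some j) = 0) :
    ∃ C : ℝ, 0 ≤ C ∧ ∀ (y : Fin (r + 1) → K) (x : Fin N → Fin 2 → K), y ≠ 0 → (∀ j, x j ≠ 0) →
      (fun a => MvPolynomial.eval (coords y x) (F a)) ≠ 0 →
      |logHeight (fun a => MvPolynomial.eval (coords y x) (F a)) -
        rdeg ((fib i (F 0)).map (MvPolynomial.eval (coords y x)))
          ((fib i (F 1)).map (MvPolynomial.eval (coords y x))) * logHeight (x i)|
        ≤ C * max 1 (base y x i) := by
  obtain ⟨C₀, hC₀, h₀⟩ := rat_height (K := K) (max (fib i (F 0)).natDegree (fib i (F 1)).natDegree)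
  obtain ⟨C₁, hC₁, h₁⟩ := pb_map (fib i (F 0))
  obtain ⟨C₂, hC₂, h₂⟩ := pb_map (fib i (F 1))
  obtain ⟨C₃, hC₃, h₃⟩ := eval_height (F 0)
  obtain ⟨C₄, hC₄, h₄⟩ := eval_height (F 1)
  refine ⟨C₀ * (2 * (C₁ + C₂) + 1) + 2 * (C₃ + C₄), by positivity, fun y x hy hx hne => ?_⟩
  obtain ⟨cy, hcy, hcy'⟩ := exists_normalise y hy
  choose cx hcx hcx' using fun j => exists_normalise (x j) (hx j)
  set H := base y x i with hH
  have hH0 : 0 ≤ H := base_nonneg _ _ _
  have hm1 : 1 ≤ max 1 H := le_max_left _ _
  have hm2 : H + 1 ≤ 2 * max 1 H := by have := le_max_right 1 H; linarith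
  let c : Option (Fin N) → K := fun j => j.elim cy fun j => if j < i then cx j else
    if j = i then 1 else 0
  let w : Fin (r + 1) ⊕ Fin N × Fin 2 → K := fun v =>
    if factor v = some i then 0 else c (factor v) * coords y x v
  have hw : ∀ v, logHeight₁ (w v) ≤ H := by
    rintro (a | ⟨j, a⟩)
    · simp only [w, c, factor, coords, Sum.elim_inl, reduceCtorEq, if_false, Option.elim_none]
      refine (hcy' a).trans ?_
      exact le_add_of_nonneg_right (sum_nonneg fun _ _ => logHeight_nonneg _)
    · simp only [w, c, factor, coords, Sum.elim_inr, Option.some.injEq, Option.elim_some]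
      split_ifs with h1 h2
      · simpa using hH0
      · refine (hcx' j a).trans ?_
        refine le_trans ?_ (le_add_of_nonneg_left (logHeight_nonneg _))
        exact single_le_sum (f := fun j => logHeight (x j)) (fun _ _ => logHeight_nonneg _)
          (mem_filter.2 ⟨mem_univ _, h2⟩)
      · simpa using hH0
  set κ : K := ∏ j, c j ^ e j with hκ
  have hκ0 : κ ≠ 0 := by
    rw [hκ, prod_ne_zero_iff]
    rintro (_ | j) -
    · exact pow_ne_zero _ hcy
    · simp only [c, Option.elim_some]
      split_ifs with h1 h2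
      · exact pow_ne_zero _ (hcx j)
      · simp
      · rw [he j (lt_of_le_of_ne (not_lt.1 h1) (Ne.symm h2))]
        simp
  have hscale : ∀ a s t, MvPolynomial.eval (upd i w s t) (F a)
      = κ * MvPolynomial.eval (upd i (coords y x) s t) (F a) := by
    intro a s t
    rw [hκ, ← eval_scale factor (F a) e (hF a) c]
    congr 2
    funext v
    by_cases h : factor v = some i
    · simp [upd, h, c]
    · simp [upd, h, w]
  have hpoly : ∀ a, (fib i (F a)).map (MvPolynomial.eval w)
      = C κ * (fib i (F a)).map (MvPolynomial.eval (coords y x)) := by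
    intro a
    apply Polynomial.funext
    intro z
    rw [eval_mul, eval_C, eval_fib, eval_fib, hscale]
  have hxi : logHeight (x i) = logHeight₁ (x i 0 / x i 1) := by
    rw [logHeight₁_div_eq_logHeight]
    congr 1
    funext a
    fin_cases a <;> rfl
  have hval : ∀ (s t u : K), u * s = x i 0 → u * t = x i 1 →
      (κ • fun a => MvPolynomial.eval (coords y x) (F a))
        = u ^ e (some i) • ![MvPolynomial.eval (upd i w s t) (F 0),
          MvPolynomial.eval (upd i w s t) (F 1)] := by
    intro s t u hs ht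
    funext a
    have e1 := eval_upd_scale i (F a) e (hF a) (coords y x) s t u
    rw [hs, ht, upd_self] at e1
    have e2 := hscale a s t
    fin_cases a <;> simp only [Fin.zero_eta, Fin.mk_one, Pi.smul_apply, smul_eq_mul,
      Matrix.cons_val_zero, Matrix.cons_val_one] at e1 e2 ⊢ <;> rw [e1, e2] <;> ring
  by_cases ht : x i 1 = 0
  · have ht0 : x i 0 ≠ 0 := by
      intro h
      apply hx i
      funext a
      fin_cases a
      exacts [h, ht]
    have e1 := hval 1 0 (x i 0) (mul_one _) (by rw [ht, mul_zero])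
    have e2 := congrArg logHeight e1
    rw [logHeight_smul_eq_logHeight _ hκ0,
      logHeight_smul_eq_logHeight _ (pow_ne_zero _ ht0)] at e2
    have hw' : ∀ v, logHeight₁ (upd i w 1 0 v) ≤ H := by
      intro v
      unfold upd
      split_ifs
      · simpa using hH0
      · simpa using hH0
      · exact hw v
    have e3 := tuple_le_sum ![MvPolynomial.eval (upd i w 1 0) (F 0),
          MvPolynomial.eval (upd i w 1 0) (F 1)]
    rw [Fin.sum_univ_two] at e3
    simp only [Matrix.cons_val_zero, Matrix.cons_val_one] at e3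
    have e4 := h₃ _ H hH0 hw'
    have e5 := h₄ _ H hH0 hw'
    rw [hxi, ht, div_zero, logHeight₁_zero, mul_zero, sub_zero,
      abs_of_nonneg (logHeight_nonneg _), e2]
    have e6 : 0 ≤ C₀ * (2 * (C₁ + C₂) + 1) * max 1 H := by positivity
    nlinarith
  · have e1 := hval (x i 0 / x i 1) 1 (x i 1) (mul_div_cancel₀ _ ht) (mul_one _)
    have e2 := congrArg logHeight e1
    rw [logHeight_smul_eq_logHeight _ hκ0,
      logHeight_smul_eq_logHeight _ (pow_ne_zero _ ht)] at e2
    have hne' : ![MvPolynomial.eval (upd i w (x i 0 / x i 1) 1) (F 0),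
          MvPolynomial.eval (upd i w (x i 0 / x i 1) 1) (F 1)] ≠ 0 := by
      intro h
      rw [h, smul_zero, smul_eq_zero] at e1
      tauto
    rw [← eval_fib, ← eval_fib] at hne' e2
    have hb : ∀ {A : K[X]} {a b : ℝ}, PB A a → a ≤ b → PB A b := fun h hab k => (h k).trans hab
    have e3 := h₀ _ _ ((C₁ + C₂) * (H + 1)) _ (by positivity) (rdeg_map_le _ _ w)
      (hb (h₁ w H hH0 hw) (by nlinarith)) (hb (h₂ w H hH0 hw) (by nlinarith)) hne'
    rw [← e2, ← hxi, hpoly, hpoly, rdeg_smul _ _ hκ0] at e3
    refine e3.trans ?_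
    have e4 : (C₁ + C₂) * (H + 1) + 1 ≤ (2 * (C₁ + C₂) + 1) * max 1 H := by nlinarith
    have e5 := mul_le_mul_of_nonneg_left e4 hC₀
    have e6 : 0 ≤ 2 * (C₃ + C₄) * max 1 H := by positivity
    nlinarith

theorem tower [Infinite K] (G : Fin (r + 1) → MvPolynomial (Fin (r + 1)) K)
    (F : Fin N → Fin 2 → MvPolynomial (Fin (r + 1) ⊕ Fin N × Fin 2) K)
    (e : Fin N → Option (Fin N) → ℕ)
    (hF : ∀ i a, (F i a).IsWeightedHomogeneous
      (fun v => (Pi.single (factor v) 1 : Option (Fin N) → ℕ)) (e i))
    (he : ∀ i j, i < j → e i (some j) = 0)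
    (y : ℕ → Fin (r + 1) → K) (x : ℕ → Fin N → Fin 2 → K)
    (hy0 : ∀ n, y n ≠ 0) (hx0 : ∀ n i, x n i ≠ 0)
    (hy : ∀ n a, y (n + 1) a = MvPolynomial.eval (y n) (G a))
    (hx : ∀ n i a, x (n + 1) i a = MvPolynomial.eval (coords (y n) (x n)) (F i a))
    (hbase : ∃ β : ℝ, Tendsto (fun n : ℕ => (max 1 (logHeight (y n))) ^ (1 / (n : ℝ)))
      atTop (𝓝 β))
    (S : Fin N → Set ℕ)
    (hS : ∀ i n, n ∈ S i ↔ ∃ c : Fin 2 → K, c ≠ 0 ∧ ∀ t : Fin 2 → K,
      ∑ a, c a * MvPolynomial.eval (coords (y n) (Function.update (x n) i t)) (F i a) = 0)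
    (hcol : ∀ i, (S i).Finite ∨ NonLacunary (S i)) :
    ∃ α : ℝ, Tendsto (fun n : ℕ => (max 1 (logHeight (y n) + ∑ i, logHeight (x n i))) ^
      (1 / (n : ℝ))) atTop (𝓝 α) := by
  have hw : ∀ n v, coords (y (n + 1)) (x (n + 1)) v = MvPolynomial.eval (coords (y n) (x n))
      (Sum.elim (fun a => MvPolynomial.rename Sum.inl (G a)) (fun v => F v.1 v.2) v) := by
    rintro n (a | ⟨j, a⟩)
    · simp only [coords, Sum.elim_inl, MvPolynomial.eval_rename, hy]
      rfl
    · simp only [Sum.elim_inr, ← hx]
      rfl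
  have key : ∀ i ≤ N, ∃ α, Tendsto (fun n : ℕ => Real.log (max 1 (base (y n) (x n) i)) / n)
      atTop (𝓝 α) := by
    intro i
    induction i with
    | zero =>
      intro _
      rw [tendsto_rpow_iff (fun n => le_max_left _ _)] at hbase
      simpa [base] using hbase
    | succ i ih =>
      intro hi
      obtain ⟨β, hβ⟩ := ih (by omega)
      let i' : Fin N := ⟨i, by omega⟩
      obtain ⟨C, hC, hh⟩ := fibre_height i' (F i') (e i') (hF i') (he i')
      have hset : {n | rdeg ((fib i' (F i' 0)).map (MvPolynomial.eval (coords (y n) (x n))))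
          ((fib i' (F i' 1)).map (MvPolynomial.eval (coords (y n) (x n)))) = 0} = S i' := by
        ext n
        rw [hS, Set.mem_ofPred_eq, rdeg_eq_zero_iff i' (F i') (e i') (hF i')]
      have hsucc : ∀ n, base (y n) (x n) (i + 1) = base (y n) (x n) i + logHeight (x n i') :=
        fun n => base_succ (y n) (x n) i'
      refine growth (u := fun n => logHeight (x n i')) hC (fun n => le_max_left _ _) hβ
        (fun n => logHeight_nonneg _) (fun n => rdeg_map_le _ _ _) (fun n => ?_)
        (ua_rdeg _ (fun n => coords (y n) (x n)) hw (fib i' (F i' 0)) (fib i' (F i' 1)))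
        (by rw [hset]; exact hcol i') (fun n => ?_) (fun n => ?_) (fun n => ?_)
      · have e1 : x (n + 1) i' = fun a => MvPolynomial.eval (coords (y n) (x n)) (F i' a) :=
          funext (hx n i')
        have := hh (y n) (x n) (hy0 n) (hx0 n) (e1 ▸ hx0 (n + 1) i')
        rwa [← e1] at this
      · rw [hsucc]
        exact max_le_max le_rfl (le_add_of_nonneg_right (logHeight_nonneg _))
      · rw [hsucc]
        exact le_max_of_le_right (le_add_of_nonneg_left (base_nonneg _ _ _))
      · rw [hsucc]
        have := logHeight_nonneg (x n i')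
        apply max_le
        · linarith [le_max_left 1 (base (y n) (x n) i)]
        · linarith [le_max_right 1 (base (y n) (x n) i)]
  rw [tendsto_rpow_iff (fun n => le_max_left _ _)]
  simpa [base] using key N le_rfl

end fibre

end Pool.Agent.MP_195eb9_ag
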